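import Mathlib

set_option autoImplicit false

/-! Basic tools for the connectedness of graphs of compositions of derivatives:
Darboux functions, closed covers with small oscillation, clamping, generic sequences. -/

namespace Pool.Agent.H924Z.Conn

open Set Metric

/-- Darboux property on the whole line -/
def Dbx (φ : ℝ → ℝ) : Prop := ∀ a b : ℝ, uIcc (φ a) (φ b) ⊆ φ '' uIcc a b

/-- countable closed covers on whose pieces the function is nearly constant -/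
def B1 (φ : ℝ → ℝ) : Prop :=
  ∀ ε > 0, ∃ (F : ℕ → Set ℝ) (c : ℕ → ℝ), (∀ i, IsClosed (F i)) ∧ (∀ y, ∃ i, y ∈ F i) ∧
    ∀ i, ∀ y ∈ F i, |φ y - c i| < ε

/-- the chain of successive values -/
def ch (g : ℕ → ℝ → ℝ) (x : ℝ) : ℕ → ℝ
  | 0 => x
  | j + 1 => g j (ch g x j)

@[simp] lemma ch_zero (g : ℕ → ℝ → ℝ) (x : ℝ) : ch g x 0 = x := rfl
lemma ch_succ (g : ℕ → ℝ → ℝ) (x : ℝ) (j : ℕ) : ch g x (j + 1) = g j (ch g x j) := rfl

lemma Dbx.comp {φ ψ : ℝ → ℝ} (h1 : Dbx φ) (h2 : Dbx ψ) : Dbx (fun x => φ (ψ x)) := by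
  intro a b z hz
  obtain ⟨y, hy, rfl⟩ := h1 _ _ hz
  obtain ⟨x, hx, rfl⟩ := h2 _ _ hy
  exact ⟨x, hx, rfl⟩

lemma dbx_of_continuous {φ : ℝ → ℝ} (h : Continuous φ) : Dbx φ :=
  fun _ _ => intermediate_value_uIcc h.continuousOn

lemma dbx_ch {g : ℕ → ℝ → ℝ} (h : ∀ j, Dbx (g j)) (j : ℕ) : Dbx (fun x => ch g x j) := by
  induction j with
  | zero => exact dbx_of_continuous continuous_id
  | succ j ih => exact (h j).comp ih

/-- one-sided cluster values of a Darboux function -/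
lemma Dbx.cluster {ψ : ℝ → ℝ} (h : Dbx ψ) {w v η : ℝ} (hη : 0 < η) (hv : v ≠ w) :
    ∃ y ∈ uIcc w v, y ≠ w ∧ |y - w| < η ∧ |ψ y - ψ w| < η := by
  -- first move `v` close to `w`
  obtain ⟨v', hv'1, hv'2, hv'3⟩ : ∃ v' ∈ uIcc w v, v' ≠ w ∧ |v' - w| < η := by
    rcases lt_or_gt_of_ne hv with hlt | hlt
    · refine ⟨max v (w - η / 2), ?_, ?_, ?_⟩
      · rw [uIcc_of_ge hlt.le]
        exact ⟨le_max_left _ _, max_le hlt.le (by linarith)⟩
      · exact (max_lt hlt (by linarith)).ne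
      · have h1 : max v (w - η / 2) < w := max_lt hlt (by linarith)
        have h2 : w - η / 2 ≤ max v (w - η / 2) := le_max_right _ _
        rw [abs_lt]; constructor <;> linarith
    · refine ⟨min v (w + η / 2), ?_, ?_, ?_⟩
      · rw [uIcc_of_le hlt.le]
        exact ⟨le_min hlt.le (by linarith), min_le_left _ _⟩
      · exact (lt_min hlt (by linarith)).ne'
      · have h1 : w < min v (w + η / 2) := lt_min hlt (by linarith)
        have h2 : min v (w + η / 2) ≤ w + η / 2 := min_le_right _ _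
        rw [abs_lt]; constructor <;> linarith
  have hsub : uIcc w v' ⊆ uIcc w v := uIcc_subset_uIcc left_mem_uIcc hv'1
  by_cases he : ψ v' = ψ w
  · exact ⟨v', hv'1, hv'2, hv'3, by rw [he]; simpa using hη⟩
  obtain ⟨z, hz1, hz2, hz3⟩ : ∃ z ∈ uIcc (ψ w) (ψ v'), z ≠ ψ w ∧ |z - ψ w| < η := by
    rcases lt_or_gt_of_ne he with hlt | hlt
    · refine ⟨max (ψ v') (ψ w - η / 2), ?_, ?_, ?_⟩
      · rw [uIcc_of_ge hlt.le]
        exact ⟨le_max_left _ _, max_le hlt.le (by linarith)⟩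
      · exact (max_lt hlt (by linarith)).ne
      · have h1 : max (ψ v') (ψ w - η / 2) < ψ w := max_lt hlt (by linarith)
        have h2 : ψ w - η / 2 ≤ max (ψ v') (ψ w - η / 2) := le_max_right _ _
        rw [abs_lt]; constructor <;> linarith
    · refine ⟨min (ψ v') (ψ w + η / 2), ?_, ?_, ?_⟩
      · rw [uIcc_of_le hlt.le]
        exact ⟨le_min hlt.le (by linarith), min_le_left _ _⟩
      · exact (lt_min hlt (by linarith)).ne'
      · have h1 : ψ w < min (ψ v') (ψ w + η / 2) := lt_min hlt (by linarith)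
        have h2 : min (ψ v') (ψ w + η / 2) ≤ ψ w + η / 2 := min_le_right _ _
        rw [abs_lt]; constructor <;> linarith
  obtain ⟨y, hy, rfl⟩ := h w v' hz1
  refine ⟨y, hsub hy, fun hh => hz2 (by rw [hh]), ?_, hz3⟩
  exact lt_of_le_of_lt (abs_sub_left_of_mem_uIcc hy) hv'3

/-- clamp `r` to the interval with end points `p`, `q` -/
noncomputable def clamp (p q r : ℝ) : ℝ := max (min p q) (min (max p q) r)

lemma clamp_mem (p q r : ℝ) : clamp p q r ∈ uIcc p q := by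
  unfold clamp
  rw [uIcc]
  exact ⟨le_max_left _ _, max_le min_le_max (min_le_left _ _)⟩

lemma clamp_of_mem {p q r : ℝ} (h : r ∈ uIcc p q) : clamp p q r = r := by
  unfold clamp
  rw [uIcc] at h
  obtain ⟨h1, h2⟩ := h
  rw [min_eq_right h2, max_eq_right h1]

lemma continuous_clamp (p q : ℝ) : Continuous (clamp p q) := by
  unfold clamp
  fun_prop

lemma clamp_cases (p q r : ℝ) : clamp p q r = r ∨ clamp p q r = p ∨ clamp p q r = q := by
  unfold clamp
  simp only [max_def, min_def]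
  split_ifs <;> simp

lemma clamp_subset {p q r r' : ℝ} (h : clamp p q r ≠ clamp p q r') :
    uIcc (clamp p q r) (clamp p q r') ⊆ uIcc r r' := by
  apply uIcc_subset_uIcc
  · rw [mem_uIcc]
    unfold clamp at h ⊢
    simp only [max_def, min_def] at h ⊢
    split_ifs at h ⊢ <;> first | (exfalso; exact h rfl) | (rcases le_total r r' with hh | hh <;>
      first | (left; constructor <;> linarith) | (right; constructor <;> linarith))
  · rw [mem_uIcc]
    unfold clamp at h ⊢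
    simp only [max_def, min_def] at h ⊢
    split_ifs at h ⊢ <;> first | (exfalso; exact h rfl) | (rcases le_total r r' with hh | hh <;>
      first | (left; constructor <;> linarith) | (right; constructor <;> linarith))

/-- nearest point of a closed set -/
lemma gap {T : Set ℝ} (hT : IsClosed T) (hne : T.Nonempty) (v : ℝ) :
    ∃ t ∈ T, ∀ y ∈ uIcc t v, y ≠ t → ∀ z ∈ uIcc y v, z ∉ T := by
  obtain ⟨t, ht, hd⟩ := hT.exists_infDist_eq_dist hne v
  refine ⟨t, ht, fun y hy hyt z hz hzT => ?_⟩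
  have h1 : infDist v T ≤ dist v z := infDist_le_dist_of_mem hzT
  rw [hd, Real.dist_eq, Real.dist_eq] at h1
  rw [mem_uIcc] at hy hz
  rcases lt_or_gt_of_ne hyt with h | h <;> rcases hy with hy | hy <;> rcases hz with hz | hz <;>
    rcases abs_cases (v - t) with h3 | h3 <;> rcases abs_cases (v - z) with h4 | h4 <;>
    linarith [hy.1, hy.2, hz.1, hz.2, h3.1, h3.2, h4.1, h4.2]

/-- the complement of the graph is a countable union of closed sets -/
lemma B1.graph {φ : ℝ → ℝ} (h : B1 φ) : ∃ E : ℕ → Set (ℝ × ℝ), (∀ i, IsClosed (E i)) ∧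
    (∀ i y, (y, φ y) ∉ E i) ∧ ∀ y z, z ≠ φ y → ∃ i, (y, z) ∈ E i := by
  have h' : ∀ m : ℕ, ∃ (F : ℕ → Set ℝ) (c : ℕ → ℝ), (∀ i, IsClosed (F i)) ∧ (∀ y, ∃ i, y ∈ F i) ∧
      ∀ i, ∀ y ∈ F i, |φ y - c i| < 1 / ((m : ℝ) + 1) := fun m => h _ (by positivity)
  choose F c h1 h2 h3 using h'
  refine ⟨fun i => {p | p.1 ∈ F (Nat.unpair i).1 (Nat.unpair i).2 ∧
      1 / (((Nat.unpair i).1 : ℝ) + 1) ≤ |p.2 - c (Nat.unpair i).1 (Nat.unpair i).2|}, ?_, ?_, ?_⟩
  · intro i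
    have hc : Continuous (fun p : ℝ × ℝ => |p.2 - c (Nat.unpair i).1 (Nat.unpair i).2|) := by
      fun_prop
    exact ((h1 _ _).preimage continuous_fst).inter (isClosed_le continuous_const hc)
  · rintro i y ⟨hy1, hy2⟩
    exact absurd (h3 _ _ _ hy1) (not_lt.2 hy2)
  · intro y z hz
    have hpos : 0 < |z - φ y| / 2 := by
      have : z - φ y ≠ 0 := sub_ne_zero.2 hz
      positivity
    obtain ⟨m, hm⟩ := exists_nat_one_div_lt hpos
    obtain ⟨i, hi⟩ := h2 m y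
    refine ⟨Nat.pair m i, ?_⟩
    simp only [mem_ofPred_eq, Nat.unpair_pair]
    refine ⟨hi, ?_⟩
    have h4 := h3 m i y hi
    have h5 : |z - φ y| ≤ |z - c m i| + |φ y - c m i| := by
      have := abs_sub_le z (c m i) (φ y)
      rwa [abs_sub_comm (c m i) (φ y)] at this
    linarith

/-- descending sequences meeting countably many dense sets -/
lemma exists_seq {σ : Type} (r : σ → σ → Prop) (hrefl : ∀ s, r s s)
    (htr : ∀ a b c, r a b → r b c → r a c) (s0 : σ) (D : ℕ → σ → Prop)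
    (hD : ∀ i s, r s s0 → ∃ s', r s' s ∧ D i s') :
    ∃ q : ℕ → σ, (∀ i, r (q i) s0) ∧ (∀ i, r (q (i + 1)) (q i)) ∧ ∀ i, D i (q (i + 1)) := by
  have hD' : ∀ i (s : {s // r s s0}), ∃ s' : {s // r s s0}, r s'.1 s.1 ∧ D i s'.1 := by
    intro i s
    obtain ⟨s', h1, h2⟩ := hD i s.1 s.2
    exact ⟨⟨s', htr _ _ _ h1 s.2⟩, h1, h2⟩
  choose f hf1 hf2 using hD'
  let q : ℕ → {s // r s s0} := fun i => Nat.rec ⟨s0, hrefl s0⟩ (fun i s => f i s) i
  exact ⟨fun i => (q i).1, fun i => (q i).2, fun i => hf1 i (q i), fun i => hf2 i (q i)⟩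

/-- a generic point principle for a preorder `r` with a monotone family of point sets `P` -/
def Gen {σ : Type} (r : σ → σ → Prop) (P : σ → Set ℝ) : Prop :=
  ∀ (s0 : σ) (D : ℕ → σ → Prop), (∀ i s, r s s0 → ∃ s', r s' s ∧ D i s') →
    ∃ x, ∀ i, ∃ s, r s s0 ∧ D i s ∧ x ∈ P s

lemma Gen.nonempty {σ : Type} {r : σ → σ → Prop} {P : σ → Set ℝ} (h : Gen r P)
    (hrefl : ∀ s, r s s) (hmono : ∀ a b, r a b → P a ⊆ P b) (s : σ) : (P s).Nonempty := by
  obtain ⟨x, hx⟩ := h s (fun _ _ => True) (fun _ s _ => ⟨s, hrefl s, trivial⟩)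
  obtain ⟨s', h1, _, h3⟩ := hx 0
  exact ⟨x, hmono _ _ h1 h3⟩

lemma Gen.baire {σ : Type} {r : σ → σ → Prop} {P : σ → Set ℝ} (h : Gen r P)
    (hmono : ∀ a b, r a b → P a ⊆ P b) (s0 : σ) (A : ℕ → Set ℝ)
    (hA : ∀ x ∈ P s0, ∃ i, x ∈ A i) :
    ∃ i s1, r s1 s0 ∧ ∀ s, r s s1 → ∃ x ∈ P s, x ∈ A i := by
  by_contra hcon
  push Not at hcon
  obtain ⟨x, hx⟩ := h s0 (fun i s => ∀ x ∈ P s, x ∉ A i) (fun i s hs => hcon i s hs)
  obtain ⟨s', h1, _, h3⟩ := hx 0
  obtain ⟨i, hi⟩ := hA x (hmono _ _ h1 h3)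
  obtain ⟨s, _, h2, h3⟩ := hx i
  exact h2 x h3 hi

/-- the limit points of the boxes below `s`, up to level `k` -/
def Lim {σ : Type} (r : σ → σ → Prop) (K : σ → ℕ → Set ℝ) (g : ℕ → ℝ → ℝ) (k : ℕ) (s : σ) :
    Set ℝ :=
  {x | ∀ δ > 0, ∃ s', r s' s ∧ ∀ j ≤ k, K s' j ⊆ ball (ch g x j) δ}

lemma lim_mono {σ : Type} {r : σ → σ → Prop} (htr : ∀ a b c, r a b → r b c → r a c)
    (K : σ → ℕ → Set ℝ) (g : ℕ → ℝ → ℝ) (k : ℕ) (a b : σ) (hab : r a b) :
    Lim r K g k a ⊆ Lim r K g k b := by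
  intro x hx δ hδ
  obtain ⟨s', h1, h2⟩ := hx δ hδ
  exact ⟨s', htr _ _ _ h1 hab, h2⟩

lemma lim_mem_closed {σ : Type} {r : σ → σ → Prop} {K : σ → ℕ → Set ℝ} {g : ℕ → ℝ → ℝ} {k : ℕ}
    {s : σ} {x : ℝ} (hx : x ∈ Lim r K g k s) {j : ℕ} (hj : j ≤ k) {F : Set ℝ} (hF : IsClosed F)
    (h : ∀ s', r s' s → ∃ y ∈ K s' j, y ∈ F) : ch g x j ∈ F := by
  rw [← hF.closure_eq, Metric.mem_closure_iff]
  intro δ hδ
  obtain ⟨s', h1, h2⟩ := hx δ hδ
  obtain ⟨y, hy1, hy2⟩ := h s' h1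
  exact ⟨y, hy2, by rw [dist_comm]; exact h2 j hj hy1⟩

/-- small sets -/
def Small (A : Set ℝ) (ε : ℝ) : Prop := ∀ u ∈ A, ∀ v ∈ A, |u - v| < ε

lemma Small.mono {A B : Set ℝ} {ε : ℝ} (h : Small A ε) (hB : B ⊆ A) : Small B ε :=
  fun u hu v hv => h u (hB hu) v (hB hv)

lemma gen_lim {σ : Type} (r : σ → σ → Prop) (hrefl : ∀ s, r s s)
    (htr : ∀ a b c, r a b → r b c → r a c) (K : σ → ℕ → Set ℝ) (g : ℕ → ℝ → ℝ) (k : ℕ)
    (hB : ∀ j, B1 (g j))
    (hK : ∀ a b, r a b → ∀ j ≤ k, K a j ⊆ K b j)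
    (hKc : ∀ s j, IsCompact (K s j)) (hKn : ∀ s j, (K s j).Nonempty)
    (h0 : ∀ s, ∀ ε > 0, ∃ s', r s' s ∧ Small (K s' 0) ε)
    (hj : ∀ j < k, ∀ E : Set (ℝ × ℝ), IsClosed E → (∀ y, (y, g j y) ∉ E) → ∀ s, ∀ ε > 0,
      ∃ s', r s' s ∧ Small (K s' (j + 1)) ε ∧ ∀ y ∈ K s' j, ∀ z ∈ K s' (j + 1), (y, z) ∉ E) :
    Gen r (Lim r K g k) := by
  intro s0 D hD
  choose E hE1 hE2 hE3 using fun j => (hB j).graph
  -- all the requirements at stage `i`
  have hall : ∀ (i : ℕ) (m : ℕ), m ≤ k → ∀ s, ∃ s', r s' s ∧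
      (∀ j ≤ m, Small (K s' j) (1 / ((i : ℝ) + 1))) ∧
      ∀ j < m, ∀ y ∈ K s' j, ∀ z ∈ K s' (j + 1), (y, z) ∉ E j i := by
    intro i m
    induction m with
    | zero =>
      intro _ s
      obtain ⟨s', h1, h2⟩ := h0 s (1 / ((i : ℝ) + 1)) (by positivity)
      refine ⟨s', h1, fun j hj => ?_, fun j hj => absurd hj (Nat.not_lt_zero _)⟩
      rw [Nat.le_zero.1 hj]; exact h2
    | succ m ih =>
      intro hm s
      obtain ⟨s1, h1, h2, h3⟩ := ih (by omega) s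
      obtain ⟨s2, h4, h5, h6⟩ := hj m (by omega) (E m i) (hE1 m i) (hE2 m i) s1
        (1 / ((i : ℝ) + 1)) (by positivity)
      refine ⟨s2, htr _ _ _ h4 h1, fun j hj => ?_, fun j hj => ?_⟩
      · rcases Nat.lt_or_ge j (m + 1) with h | h
        · exact (h2 j (by omega)).mono (hK _ _ h4 j (by omega))
        · have : j = m + 1 := by omega
          rw [this]; exact h5
      · rcases Nat.lt_or_ge j m with h | h
        · intro y hy z hz
          exact h3 j h y (hK _ _ h4 j (by omega) hy) z (hK _ _ h4 (j + 1) (by omega) hz)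
        · have : j = m := by omega
          rw [this]; exact h6
  obtain ⟨q, hq0, hq1, hq2⟩ := exists_seq r hrefl htr s0
    (fun i s => D i s ∧ (∀ j ≤ k, Small (K s j) (1 / ((i : ℝ) + 1))) ∧
      ∀ j < k, ∀ y ∈ K s j, ∀ z ∈ K s (j + 1), (y, z) ∉ E j i) (by
    intro i s hs
    obtain ⟨s1, h1, h2, h3⟩ := hall i k le_rfl s
    obtain ⟨s2, h4, h5⟩ := hD i s1 (htr _ _ _ h1 hs)
    refine ⟨s2, htr _ _ _ h4 h1, h5, fun j hj => (h2 j hj).mono (hK _ _ h4 j hj), ?_⟩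
    intro j hj y hy z hz
    exact h3 j hj y (hK _ _ h4 j hj.le hy) z (hK _ _ h4 (j + 1) hj hz))
  have hqm : ∀ i i', i ≤ i' → r (q i') (q i) := by
    intro i i' h
    induction h with
    | refl => exact hrefl _
    | step _ ih => exact htr _ _ _ (hq1 _) ih
  have hlim : ∀ j, ∃ x, j ≤ k → ∀ i, x ∈ K (q i) j := by
    intro j
    by_cases hjk : j ≤ k
    · obtain ⟨x, hx⟩ := IsCompact.nonempty_iInter_of_sequence_nonempty_isCompact_isClosed
        (fun i => K (q i) j) (fun i => hK _ _ (hq1 i) j hjk) (fun i => hKn _ _) (hKc _ _)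
        (fun i => (hKc _ _).isClosed)
      exact ⟨x, fun _ i => mem_iInter.1 hx i⟩
    · exact ⟨0, fun h => absurd h hjk⟩
  choose X hX using hlim
  have hch : ∀ j ≤ k, ch g (X 0) j = X j := by
    intro j
    induction j with
    | zero => intro _; rfl
    | succ j ih =>
      intro hj
      rw [ch_succ, ih (by omega)]
      by_contra hne
      obtain ⟨i, hi⟩ := hE3 j (X j) (X (j + 1)) (fun h => hne h.symm)
      exact (hq2 i).2.2 j (by omega) _ (hX j (by omega) _) _ (hX (j + 1) hj _) hi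
  refine ⟨X 0, fun i => ⟨q (i + 1), hq0 _, (hq2 i).1, ?_⟩⟩
  intro δ hδ
  obtain ⟨m, hm⟩ := exists_nat_one_div_lt hδ
  refine ⟨q (max m i + 1), hqm _ _ (by omega), fun j hj y hy => ?_⟩
  rw [hch j hj, mem_ball, Real.dist_eq]
  have h1 := (hq2 (max m i)).2.1 j hj y hy (X j) (hX j hj _)
  have h2 : 1 / (((max m i : ℕ) : ℝ) + 1) ≤ 1 / ((m : ℝ) + 1) := by
    apply one_div_le_one_div_of_le (by positivity)
    have : (m : ℝ) ≤ ((max m i : ℕ) : ℝ) := by exact_mod_cast le_max_left m i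
    linarith
  linarith

end Pool.Agent.H924Z.Conn
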