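import Pool.Agent.H924Z.ConnMain

set_option autoImplicit false

/-! Derivatives on the unit interval, extended by clamping, and the final statement. -/

namespace Pool.Agent.H924Z.Conn

open Set Metric Filter Topology

lemma clamp01_mem (x : ℝ) : clamp 0 1 x ∈ Icc (0 : ℝ) 1 := by
  have := clamp_mem 0 1 x
  rwa [uIcc_of_le zero_le_one] at this

lemma clamp01_eq {x : ℝ} (h : x ∈ Icc (0 : ℝ) 1) : clamp 0 1 x = x :=
  clamp_of_mem (by rwa [uIcc_of_le zero_le_one])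

lemma deriv_dbx {g F : ℝ → ℝ} (h : ∀ x ∈ Icc (0 : ℝ) 1, HasDerivWithinAt F (g x) (Icc 0 1) x) :
    Dbx (fun x => g (clamp 0 1 x)) := by
  intro a b z hz
  have hsub : uIcc (clamp 0 1 a) (clamp 0 1 b) ⊆ Icc 0 1 :=
    uIcc_subset_Icc (clamp01_mem a) (clamp01_mem b)
  have ho : (g '' uIcc (clamp 0 1 a) (clamp 0 1 b)).OrdConnected :=
    ordConnected_uIcc.image_hasDerivWithinAt (fun x hx => (h x (hsub hx)).mono hsub)
  obtain ⟨y, hy, rfl⟩ := ho.uIcc_subset ⟨_, left_mem_uIcc, rfl⟩ ⟨_, right_mem_uIcc, rfl⟩ hz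
  obtain ⟨x, hx, rfl⟩ := dbx_of_continuous (continuous_clamp 0 1) a b hy
  exact ⟨x, hx, rfl⟩

lemma b1_of_tendsto {φ : ℝ → ℝ} (u : ℕ → ℝ → ℝ) (hu : ∀ k, Continuous (u k))
    (hl : ∀ x, Tendsto (fun k => u k x) atTop (𝓝 (φ x))) : B1 φ := by
  intro ε hε
  obtain ⟨e, he⟩ := exists_surjective_nat (ℕ × ℚ)
  refine ⟨fun i => {y | ∀ k ≥ (e i).1, |u k y - (e i).2| ≤ ε / 2}, fun i => (e i).2, ?_, ?_, ?_⟩
  · intro i
    have : {y | ∀ k ≥ (e i).1, |u k y - (e i).2| ≤ ε / 2} =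
        ⋂ k, ⋂ (_ : k ≥ (e i).1), {y | |u k y - (e i).2| ≤ ε / 2} := by
      ext y; simp
    show IsClosed {y | ∀ k ≥ (e i).1, |u k y - (e i).2| ≤ ε / 2}
    rw [this]
    refine isClosed_iInter fun k => isClosed_iInter fun _ => isClosed_le ?_ continuous_const
    have := hu k
    fun_prop
  · intro y
    obtain ⟨q, hq⟩ := exists_rat_near (φ y) (show 0 < ε / 4 by linarith)
    obtain ⟨N, hN⟩ := Metric.tendsto_atTop.1 (hl y) (ε / 4) (by linarith)
    obtain ⟨i, hi⟩ := he (N, q)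
    refine ⟨i, fun k hk => ?_⟩
    rw [hi] at hk ⊢
    have h1 := hN k hk
    rw [Real.dist_eq] at h1
    rw [abs_lt] at h1 hq
    rw [abs_le]
    constructor <;> linarith [h1.1, h1.2, hq.1, hq.2]
  · intro i y hy
    have h1 : Tendsto (fun k => |u k y - (e i).2|) atTop (𝓝 |φ y - (e i).2|) :=
      ((hl y).sub_const _).abs
    have h2 : |φ y - (e i).2| ≤ ε / 2 :=
      le_of_tendsto h1 (eventually_atTop.2 ⟨(e i).1, fun k hk => hy k hk⟩)
    linarith

lemma deriv_b1 {g F : ℝ → ℝ} (h : ∀ x ∈ Icc (0 : ℝ) 1, HasDerivWithinAt F (g x) (Icc 0 1) x) :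
    B1 (fun x => g (clamp 0 1 x)) := by
  have hFc : ContinuousOn F (Icc 0 1) := fun x hx => (h x hx).continuousWithinAt
  let t : ℕ → ℝ := fun k => 1 / ((k : ℝ) + 1)
  have ht0 : ∀ k, 0 < t k := fun k => by positivity
  have ht1 : ∀ k, t k ≤ 1 := fun k => by
    show 1 / ((k : ℝ) + 1) ≤ 1
    rw [div_le_one (by positivity)]
    have : (0 : ℝ) ≤ k := Nat.cast_nonneg k
    linarith
  have hA : ∀ k, ∀ y ∈ Icc (0 : ℝ) 1, (1 - t k) * y ∈ Icc (0 : ℝ) 1 := by
    intro k y hy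
    have := ht0 k; have := ht1 k
    constructor <;> nlinarith [hy.1, hy.2]
  have hB : ∀ k, ∀ y ∈ Icc (0 : ℝ) 1, (1 - t k) * y + t k ∈ Icc (0 : ℝ) 1 := by
    intro k y hy
    have := ht0 k; have := ht1 k
    constructor <;> nlinarith [hy.1, hy.2]
  refine b1_of_tendsto (fun k x => (F ((1 - t k) * clamp 0 1 x + t k) -
    F ((1 - t k) * clamp 0 1 x)) / t k) ?_ ?_
  · intro k
    have hc := continuous_clamp 0 1
    refine Continuous.div_const (Continuous.sub ?_ ?_) _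
    · exact hFc.comp_continuous (by fun_prop) (fun x => hB k _ (clamp01_mem x))
    · exact hFc.comp_continuous (by fun_prop) (fun x => hA k _ (clamp01_mem x))
  · intro x
    have hy := clamp01_mem x
    set y := clamp 0 1 x
    rw [Metric.tendsto_atTop]
    intro ε hε
    have h1 := (hasDerivWithinAt_iff_isLittleO.1 (h y hy)).def (show 0 < ε / 2 by linarith)
    rw [eventually_nhdsWithin_iff, Metric.eventually_nhds_iff] at h1
    obtain ⟨δ, hδ, h1⟩ := h1
    obtain ⟨N, hN⟩ := exists_nat_one_div_lt hδ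
    refine ⟨N, fun k hk => ?_⟩
    have htk : t k < δ := by
      refine lt_of_le_of_lt ?_ hN
      apply one_div_le_one_div_of_le (by positivity)
      have : (N : ℝ) ≤ k := by exact_mod_cast hk
      linarith
    have h0 := ht0 k
    have e1 : (1 - t k) * y + t k - y = t k * (1 - y) := by ring
    have e2 : (1 - t k) * y - y = -(t k * y) := by ring
    have p1 : 0 ≤ t k * (1 - y) := mul_nonneg h0.le (by linarith [hy.2])
    have p2 : 0 ≤ t k * y := mul_nonneg h0.le hy.1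
    have h2 := h1 (y := (1 - t k) * y + t k) (by
      rw [Real.dist_eq, e1, abs_of_nonneg p1]; nlinarith) (hB k y hy)
    have h3 := h1 (y := (1 - t k) * y) (by
      rw [Real.dist_eq, e2, abs_neg, abs_of_nonneg p2]; nlinarith [hy.2]) (hA k y hy)
    rw [Real.norm_eq_abs, Real.norm_eq_abs, smul_eq_mul] at h2 h3
    rw [e1, abs_of_nonneg p1, abs_le] at h2
    rw [e2, abs_neg, abs_of_nonneg p2, abs_le] at h3
    rw [Real.dist_eq, abs_lt]
    have e3 : (F ((1 - t k) * y + t k) - F ((1 - t k) * y)) / t k - g y =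
        (F ((1 - t k) * y + t k) - F ((1 - t k) * y) - t k * g y) / t k := by
      field_simp
    rw [e3, lt_div_iff₀ h0, div_lt_iff₀ h0]
    constructor <;> nlinarith [h2.1, h2.2, h3.1, h3.2, mul_pos hε h0]

lemma ch_congr {g g' : ℕ → ℝ → ℝ} {n : ℕ} (h : ∀ j < n, g' j = g j) (x : ℝ) :
    ch g' x n = ch g x n := by
  induction n with
  | zero => rfl
  | succ n ih => rw [ch_succ, ch_succ, ih (fun j hj => h j (by omega)), h n (by omega)]

lemma list_system (l : List (ℝ → ℝ))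
    (hl : ∀ g ∈ l, MapsTo g (Icc (0 : ℝ) 1) (Icc (0 : ℝ) 1) ∧
      ∃ F : ℝ → ℝ, ∀ x ∈ Icc (0 : ℝ) 1, HasDerivWithinAt F (g x) (Icc (0 : ℝ) 1) x) :
    ∃ (n : ℕ) (g : ℕ → ℝ → ℝ), (∀ j, Dbx (g j)) ∧ (∀ j, B1 (g j)) ∧
      ∀ x ∈ Icc (0 : ℝ) 1, ch g x n = (l.foldr (fun g h => g ∘ h) id) x ∧ ch g x n ∈ Icc (0 : ℝ) 1 := by
  induction l with
  | nil =>
    exact ⟨0, fun _ _ => 0, fun _ => dbx_of_continuous continuous_const, fun _ => b1_zero,
      fun x hx => ⟨rfl, hx⟩⟩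
  | cons a l ih =>
    obtain ⟨n, g, h1, h2, h3⟩ := ih (fun g hg => hl g (List.mem_cons_of_mem _ hg))
    obtain ⟨ha1, F, ha2⟩ := hl a List.mem_cons_self
    refine ⟨n + 1, fun j => if j = n then (fun x => a (clamp 0 1 x)) else g j, ?_, ?_, ?_⟩
    · intro j
      by_cases hj : j = n
      · simp only [hj, if_true]; exact deriv_dbx ha2
      · simp only [hj, if_false]; exact h1 j
    · intro j
      by_cases hj : j = n
      · simp only [hj, if_true]; exact deriv_b1 ha2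
      · simp only [hj, if_false]; exact h2 j
    · intro x hx
      rw [ch_succ, ch_congr (g := g) (fun j hj => if_neg hj.ne)]
      simp only [if_true]
      rw [clamp01_eq (h3 x hx).2]
      exact ⟨by rw [(h3 x hx).1]; rfl, ha1 (h3 x hx).2⟩

theorem graph_connected (l : List (ℝ → ℝ))
    (hl : ∀ g ∈ l, MapsTo g (Icc (0 : ℝ) 1) (Icc (0 : ℝ) 1) ∧
      ∃ F : ℝ → ℝ, ∀ x ∈ Icc (0 : ℝ) 1, HasDerivWithinAt F (g x) (Icc (0 : ℝ) 1) x) :
    IsConnected ((fun x : ℝ => (x, (l.foldr (fun g h => g ∘ h) id) x)) '' Icc (0 : ℝ) 1) := by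
  obtain ⟨n, g, h1, h2, h3⟩ := list_system l hl
  set S := (fun x : ℝ => (x, (l.foldr (fun g h => g ∘ h) id) x)) '' Icc (0 : ℝ) 1 with hS
  refine ⟨⟨_, 0, ⟨le_rfl, zero_le_one⟩, rfl⟩, ?_⟩
  intro u v hu hv huv ⟨p, hpS, hpu⟩ ⟨q, hqS, hqv⟩
  by_contra hcon
  have hd1 : Disjoint (closure (S ∩ u)) (S ∩ v) := by
    rw [Set.disjoint_left]
    rintro z hz ⟨_, hzv⟩
    obtain ⟨w, hw1, hw2, hw3⟩ := mem_closure_iff.1 hz v hv hzv
    exact hcon ⟨w, hw2, hw3, hw1⟩
  have hd2 : Disjoint (S ∩ u) (closure (S ∩ v)) := by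
    rw [Set.disjoint_right]
    rintro z hz ⟨_, hzu⟩
    obtain ⟨w, hw1, hw2, hw3⟩ := mem_closure_iff.1 hz u hu hzu
    exact hcon ⟨w, hw2, hw1, hw3⟩
  obtain ⟨U, V, hU, hV, hSU, hSV, hUV⟩ := separatedNhds_iff_disjoint.2
    (CompletelyNormalSpace.completely_normal hd1 hd2)
  have hmem : ∀ x ∈ Icc (0 : ℝ) 1, (x, ch g x n) ∈ S := fun x hx =>
    ⟨x, hx, by rw [(h3 x hx).1]⟩
  let C : Ctx :=
    { n := n, g := g, W := fun c => if c then U else V, hD := h1, hB := h2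
      hW := fun c => by cases c <;> simp [hU, hV]
      hdis := fun c z hz hz' => by
        cases c
        · exact Set.disjoint_left.1 hUV (by simpa using hz') (by simpa using hz)
        · exact Set.disjoint_left.1 hUV (by simpa using hz) (by simpa using hz')
      hcov := fun x hx => by
        rcases huv (hmem x hx) with h | h
        · exact ⟨true, by simpa using hSU ⟨hmem x hx, h⟩⟩
        · exact ⟨false, by simpa using hSV ⟨hmem x hx, h⟩⟩ }
  obtain ⟨a, ha, rfl⟩ := hpS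
  obtain ⟨b, hb, rfl⟩ := hqS
  refine Ctx.one_colour (C := C) (pairOf true a b) (bool_ind true (by simpa using ha)
    (by rw [pairOf_not]; exact hb)) (bool_ind true ?_ ?_)
  · rw [pairOf_self]
    have : (a, ch g a n) ∈ U := hSU ⟨hmem a ha, by rw [(h3 a ha).1]; exact hpu⟩
    simpa [C] using this
  · rw [pairOf_not]
    have : (b, ch g b n) ∈ V := hSV ⟨hmem b hb, by rw [(h3 b hb).1]; exact hqv⟩
    simpa [C] using this

end Pool.Agent.H924Z.Conn
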