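import Pool.Agent.H924Z.ConnPair

set_option autoImplicit false

/-! The main induction: a composition of Darboux functions with closed covers of small
oscillation cannot have its graph split by two disjoint open sets. -/

namespace Pool.Agent.H924Z.Conn

open Set Metric

/-- the data of a hypothetical splitting -/
structure Ctx where
  n : ℕ
  g : ℕ → ℝ → ℝ
  W : Bool → Set (ℝ × ℝ)
  hD : ∀ j, Dbx (g j)
  hB : ∀ j, B1 (g j)
  hW : ∀ c, IsOpen (W c)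
  hdis : ∀ c p, p ∈ W c → p ∉ W (!c)
  hcov : ∀ x ∈ Icc (0 : ℝ) 1, ∃ c, (x, ch g x n) ∈ W c

namespace Ctx

variable (C : Ctx)

/-- the interval of level `j` spanned by the pair `s` -/
def I (s : Bool → ℝ) (j : ℕ) : Set ℝ := uIcc (ch C.g (s true) j) (ch C.g (s false) j)

/-- states: strong pairs -/
def St (s : Bool → ℝ) : Prop :=
  (∀ c, s c ∈ Icc (0 : ℝ) 1) ∧ ∀ c, ∀ x ∈ C.I s 0, (x, ch C.g (s c) C.n) ∈ C.W c

/-- inclusion of the boxes up to level `k` -/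
def Le (k : ℕ) (s' s : Bool → ℝ) : Prop := ∀ j ≤ k, C.I s' j ⊆ C.I s j

/-- clamping to the interval of level `j` -/
noncomputable def cl (s : Bool → ℝ) (j : ℕ) (r : ℝ) : ℝ :=
  clamp (ch C.g (s true) j) (ch C.g (s false) j) r

/-- the truncated chain started at level `m` -/
noncomputable def tc (s : Bool → ℝ) (m : ℕ) (r : ℝ) : ℕ → ℝ
  | 0 => C.cl s m r
  | i + 1 => C.cl s (m + i + 1) (C.g (m + i) (tc s m r i))

variable {C}

lemma mem_I (s : Bool → ℝ) (c : Bool) (j : ℕ) : ch C.g (s c) j ∈ C.I s j := by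
  unfold I
  cases c
  · exact right_mem_uIcc
  · exact left_mem_uIcc

lemma I_ord (s : Bool → ℝ) (j : ℕ) {a b : ℝ} (ha : a ∈ C.I s j) (hb : b ∈ C.I s j) :
    uIcc a b ⊆ C.I s j := uIcc_subset_uIcc ha hb

lemma I_cover (s : Bool → ℝ) (j : ℕ) : C.I s (j + 1) ⊆ C.g j '' C.I s j := C.hD j _ _

lemma St.sub {s : Bool → ℝ} (h : C.St s) : C.I s 0 ⊆ Icc 0 1 :=
  uIcc_subset_Icc (h.1 true) (h.1 false)

lemma cl_mem (s : Bool → ℝ) (j : ℕ) (r : ℝ) : C.cl s j r ∈ C.I s j := clamp_mem _ _ _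

lemma cl_of_mem {s : Bool → ℝ} {j : ℕ} {r : ℝ} (h : r ∈ C.I s j) : C.cl s j r = r :=
  clamp_of_mem h

lemma cl_cases (s : Bool → ℝ) (j : ℕ) (r : ℝ) :
    C.cl s j r = r ∨ ∃ c, C.cl s j r = ch C.g (s c) j := by
  rcases clamp_cases (ch C.g (s true) j) (ch C.g (s false) j) r with h | h | h
  · exact Or.inl h
  · exact Or.inr ⟨true, h⟩
  · exact Or.inr ⟨false, h⟩

lemma tc_mem (s : Bool → ℝ) (m : ℕ) (r : ℝ) (i : ℕ) : C.tc s m r i ∈ C.I s (m + i) := by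
  cases i with
  | zero => exact cl_mem _ _ _
  | succ i => exact cl_mem _ _ _

lemma tc_dbx (s : Bool → ℝ) (m i : ℕ) : Dbx (fun r => C.tc s m r i) := by
  induction i with
  | zero => exact dbx_of_continuous (continuous_clamp _ _)
  | succ i ih =>
    exact (dbx_of_continuous (continuous_clamp _ _)).comp ((C.hD (m + i)).comp ih)

lemma tc_eq {s : Bool → ℝ} {m : ℕ} {x : ℝ} (i : ℕ)
    (h : ∀ j ≤ m + i, ch C.g x j ∈ C.I s j) : C.tc s m (ch C.g x m) i = ch C.g x (m + i) := by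
  induction i with
  | zero => exact cl_of_mem (h m le_rfl)
  | succ i ih =>
    show C.cl s (m + i + 1) (C.g (m + i) (C.tc s m (ch C.g x m) i)) = _
    rw [ih (fun j hj => h j (by omega))]
    exact cl_of_mem (h (m + i + 1) le_rfl)

lemma tc_cases (s : Bool → ℝ) (m : ℕ) (x : ℝ) (i : ℕ) :
    C.tc s m (ch C.g x m) i = ch C.g x (m + i) ∨
      ∃ c, C.tc s m (ch C.g x m) i = ch C.g (s c) (m + i) := by
  induction i with
  | zero => exact cl_cases _ _ _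
  | succ i ih =>
    rcases ih with h | ⟨c, h⟩
    · show C.cl s (m + i + 1) (C.g (m + i) (C.tc s m (ch C.g x m) i)) = _ ∨
        ∃ c, C.cl s (m + i + 1) (C.g (m + i) (C.tc s m (ch C.g x m) i)) = _
      rw [h]
      exact cl_cases s (m + i + 1) (ch C.g x (m + i + 1))
    · right
      refine ⟨c, ?_⟩
      show C.cl s (m + i + 1) (C.g (m + i) (C.tc s m (ch C.g x m) i)) = _
      rw [h]
      exact cl_of_mem (mem_I s c (m + i + 1))

lemma tc_cov {s : Bool → ℝ} (hs : C.St s) {m : ℕ} (hm : m ≤ C.n) {x : ℝ} (hx : x ∈ C.I s 0) :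
    ∃ c, (x, C.tc s m (ch C.g x m) (C.n - m)) ∈ C.W c := by
  have hn : m + (C.n - m) = C.n := by omega
  rcases tc_cases (C := C) s m x (C.n - m) with h | ⟨c, h⟩
  · rw [h, hn]; exact C.hcov x (hs.sub hx)
  · rw [h, hn]; exact ⟨c, hs.2 c x hx⟩

lemma tc_ne {s : Bool → ℝ} {m : ℕ} {r r' : ℝ} {i i' : ℕ} (hi : i ≤ i')
    (h : C.tc s m r i' ≠ C.tc s m r' i') : C.tc s m r i ≠ C.tc s m r' i := by
  intro he
  apply h
  induction hi with
  | refl => exact he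
  | @step i' _ ih =>
    by_cases h' : C.tc s m r i' = C.tc s m r' i'
    · show C.cl s _ (C.g _ (C.tc s m r i')) = C.cl s _ (C.g _ (C.tc s m r' i'))
      rw [h']
    · exact absurd (ih h') h'

/-- the state builder -/
lemma build (s0 : Bool → ℝ) (m : ℕ) (hm : m ≤ C.n) (J : ℕ → Set ℝ) (r r' : ℝ) (c : Bool)
    (hJ : ∀ j < m, J (j + 1) ⊆ C.g j '' J j) (hJo : ∀ j < m, (J j).OrdConnected)
    (hJs : ∀ j < m, J j ⊆ C.I s0 j) (hr : uIcc r r' ⊆ J m) (h01 : J 0 ⊆ Icc 0 1)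
    (hne : (J 0).Nonempty)
    (hc : ∀ x ∈ J 0, (x, C.tc s0 m r (C.n - m)) ∈ C.W c)
    (hc' : ∀ x ∈ J 0, (x, C.tc s0 m r' (C.n - m)) ∈ C.W (!c)) :
    ∃ s, C.St s ∧ C.Le C.n s s0 ∧ (∀ j < m, C.I s j ⊆ J j) ∧ C.I s m ⊆ uIcc r r' := by
  have hfin : C.tc s0 m r (C.n - m) ≠ C.tc s0 m r' (C.n - m) := by
    obtain ⟨x, hx⟩ := hne
    intro he
    exact C.hdis c _ (hc x hx) (by rw [he]; exact hc' x hx)
  let J' : ℕ → Set ℝ := fun j =>
    if j < m then J j else uIcc (C.tc s0 m r (j - m)) (C.tc s0 m r' (j - m))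
  have hJ'1 : ∀ j < m, J' j = J j := fun j hj => if_pos hj
  have hJ'2 : ∀ i, J' (m + i) = uIcc (C.tc s0 m r i) (C.tc s0 m r' i) := by
    intro i
    show (if m + i < m then _ else _) = _
    rw [if_neg (by omega), Nat.add_sub_cancel_left]
  have hJ'm : J' m ⊆ uIcc r r' := by
    have := hJ'2 0
    rw [Nat.add_zero] at this
    rw [this]
    exact clamp_subset (tc_ne (Nat.zero_le _) hfin)
  have hcover : ∀ j < C.n, J' (j + 1) ⊆ C.g j '' J' j := by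
    intro j hj
    rcases Nat.lt_or_ge j m with h | h
    · rw [hJ'1 j h]
      rcases Nat.lt_or_ge (j + 1) m with h' | h'
      · rw [hJ'1 _ h']; exact hJ j h
      · have he : j + 1 = m := by omega
        refine Subset.trans ?_ (hJ j h)
        rw [he]; exact hJ'm.trans hr
    · obtain ⟨i, rfl⟩ := Nat.exists_eq_add_of_le h
      rw [hJ'2 i, show m + i + 1 = m + (i + 1) from rfl, hJ'2 (i + 1)]
      have hne' : C.tc s0 m r (i + 1) ≠ C.tc s0 m r' (i + 1) := tc_ne (by omega) hfin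
      exact (clamp_subset hne').trans (C.hD _ _ _)
  have hJ'0 : J' 0 ⊆ J 0 := by
    rcases Nat.eq_zero_or_pos m with h | h
    · subst h; exact hJ'm.trans hr
    · rw [hJ'1 0 h]
  have hJ'o : ∀ j, (J' j).OrdConnected := by
    intro j
    rcases Nat.lt_or_ge j m with h | h
    · rw [hJ'1 j h]; exact hJo j h
    · obtain ⟨i, rfl⟩ := Nat.exists_eq_add_of_le h
      rw [hJ'2 i]; exact ordConnected_uIcc
  have hn : m + (C.n - m) = C.n := by omega
  have hJ'n : J' C.n = uIcc (C.tc s0 m r (C.n - m)) (C.tc s0 m r' (C.n - m)) := by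
    rw [← hJ'2, hn]
  obtain ⟨a, ha1, ha2⟩ := lift_chain C.g J' C.n hcover _ (by rw [hJ'n]; exact left_mem_uIcc)
  obtain ⟨b, hb1, hb2⟩ := lift_chain C.g J' C.n hcover _ (by rw [hJ'n]; exact right_mem_uIcc)
  have hsub : ∀ j ≤ C.n, C.I (pairOf c a b) j ⊆ J' j := by
    intro j hj
    have h5 : ∀ d, ch C.g (pairOf c a b d) j ∈ J' j :=
      bool_ind c (by simpa using ha2 j hj) (by simpa using hb2 j hj)
    exact (hJ'o j).uIcc_subset (h5 true) (h5 false)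
  refine ⟨pairOf c a b, ⟨fun d => h01 (hJ'0 (hsub 0 (Nat.zero_le _) (mem_I _ d 0))), ?_⟩,
    fun j hj => (hsub j hj).trans ?_, fun j hj => ?_, (hsub m hm).trans hJ'm⟩
  · refine bool_ind c ?_ ?_
    · intro x hx
      rw [pairOf_self, ha1]; exact hc x (hJ'0 (hsub 0 (Nat.zero_le _) hx))
    · intro x hx
      rw [pairOf_not, hb1]; exact hc' x (hJ'0 (hsub 0 (Nat.zero_le _) hx))
  · rcases Nat.lt_or_ge j m with h | h
    · rw [hJ'1 j h]; exact hJs j h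
    · obtain ⟨i, rfl⟩ := Nat.exists_eq_add_of_le h
      rw [hJ'2 i]; exact I_ord _ _ (tc_mem _ _ _ _) (tc_mem _ _ _ _)
  · rw [← hJ'1 j hj]; exact hsub j (by omega)

/-- the builder used in the inductive step -/
lemma build' (s0 s2 : Bool → ℝ) (hs2 : C.St s2) (hle : C.Le C.n s2 s0) (k : ℕ) (hk : k < C.n)
    (y y' r r' : ℝ) (c : Bool) (hy : y ∈ C.I s2 k) (hy' : y' ∈ C.I s2 k)
    (hr : uIcc r r' ⊆ C.g k '' uIcc y y')
    (hc : ∀ x ∈ C.I s2 0, (x, C.tc s0 (k + 1) r (C.n - (k + 1))) ∈ C.W c)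
    (hc' : ∀ x ∈ C.I s2 0, (x, C.tc s0 (k + 1) r' (C.n - (k + 1))) ∈ C.W (!c)) :
    ∃ s, C.St s ∧ C.Le C.n s s0 ∧ C.Le k s s2 ∧ C.I s k ⊆ uIcc y y' ∧
      C.I s (k + 1) ⊆ uIcc r r' := by
  let J : ℕ → Set ℝ := fun j => if j < k then C.I s2 j else if j = k then uIcc y y' else uIcc r r'
  have h1 : ∀ j < k, J j = C.I s2 j := fun j hj => if_pos hj
  have h2 : J k = uIcc y y' := by
    show (if k < k then _ else if k = k then _ else _) = _
    rw [if_neg (lt_irrefl k), if_pos rfl]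
  have h3 : J (k + 1) = uIcc r r' := by
    show (if k + 1 < k then _ else if k + 1 = k then _ else _) = _
    rw [if_neg (by omega), if_neg (by omega)]
  have h4 : ∀ j ≤ k, J j ⊆ C.I s2 j := by
    intro j hj
    rcases Nat.lt_or_ge j k with h | h
    · rw [h1 j h]
    · have : j = k := by omega
      rw [this, h2]; exact I_ord _ _ hy hy'
  have h5 : (J 0).Nonempty := by
    rcases Nat.eq_zero_or_pos k with h | h
    · subst h; rw [h2]; exact nonempty_uIcc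
    · rw [h1 0 h]; exact nonempty_uIcc
  obtain ⟨s, hs1, hs2', hs3, hs4⟩ := build s0 (k + 1) hk J r r' c
    (by
      intro j hj
      rcases Nat.lt_or_ge j k with h | h
      · rw [h1 j h]; exact (h4 (j + 1) h).trans (I_cover _ _)
      · have : j = k := by omega
        rw [this, h2, h3]; exact hr)
    (by
      intro j hj
      rcases Nat.lt_or_ge j k with h | h
      · rw [h1 j h]; exact ordConnected_uIcc
      · have : j = k := by omega
        rw [this, h2]; exact ordConnected_uIcc)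
    (fun j hj => (h4 j (by omega)).trans (hle j (by omega)))
    (by rw [h3]) ((h4 0 (Nat.zero_le _)).trans hs2.sub) h5
    (fun x hx => hc x (h4 0 (Nat.zero_le _) hx)) (fun x hx => hc' x (h4 0 (Nat.zero_le _) hx))
  refine ⟨s, hs1, hs2', fun j hj => (hs3 j (by omega)).trans (h4 j hj), ?_, hs4⟩
  rw [← h2]; exact hs3 k (by omega)

lemma h_zero (s : Bool → ℝ) (hs : C.St s) (ε : ℝ) (hε : 0 < ε) :
    ∃ s', C.St s' ∧ C.Le C.n s' s ∧ Small (C.I s' 0) ε := by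
  have hn : 0 + C.n = C.n := by omega
  obtain ⟨q, hq1, hq2, hq3⟩ := strong_pair (tc_dbx (C := C) s 0 C.n) C.W C.hW s
    (fun c => by
      have := tc_eq (C := C) (s := s) (m := 0) (x := s c) C.n (fun j _ => mem_I s c j)
      rw [ch_zero, hn] at this
      show (s c, C.tc s 0 (s c) C.n) ∈ _
      rw [this]; exact hs.2 c _ (mem_I s c 0))
    (fun x hx => tc_cov hs (Nat.zero_le _) hx) ε hε
  obtain ⟨s', h1, h2, _, h4⟩ := build s 0 (Nat.zero_le _) (fun _ => uIcc (q true) (q false))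
    (q true) (q false) true (fun j hj => absurd hj (Nat.not_lt_zero _))
    (fun j hj => absurd hj (Nat.not_lt_zero _)) (fun j hj => absurd hj (Nat.not_lt_zero _))
    Subset.rfl ((uIcc_subset_uIcc (hq1 true) (hq1 false)).trans hs.sub) nonempty_uIcc
    (hq3 true) (hq3 false)
  exact ⟨s', h1, h2, (small_uIcc hq2).mono h4⟩

variable (C) in
/-- boxes of levels `j`, `j + 1` can be made small and close to the graph of `g j` -/
def Hs (j : ℕ) : Prop :=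
  ∀ E : Set (ℝ × ℝ), IsClosed E → (∀ y, (y, C.g j y) ∉ E) → ∀ s, C.St s → ∀ ε > 0,
    ∃ s', C.St s' ∧ C.Le C.n s' s ∧ Small (C.I s' (j + 1)) ε ∧
      ∀ y ∈ C.I s' j, ∀ z ∈ C.I s' (j + 1), (y, z) ∉ E

variable (C) in
/-- states below a root -/
def Below (s0 : Bool → ℝ) : Type := {s : Bool → ℝ // C.St s ∧ C.Le C.n s s0}

lemma gen_below (s0 : Bool → ℝ) (k : ℕ) (hk : k ≤ C.n) (h : ∀ j < k, C.Hs j) :
    Gen (fun a b : C.Below s0 => C.Le k a.1 b.1)
      (Lim (fun a b : C.Below s0 => C.Le k a.1 b.1) (fun a j => C.I a.1 j) C.g k) := by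
  refine gen_lim _ (fun s j _ => Subset.rfl) (fun a b c h1 h2 j hj => (h1 j hj).trans (h2 j hj))
    _ C.g k C.hB (fun a b h => h) (fun _ _ => isCompact_uIcc) (fun _ _ => nonempty_uIcc) ?_ ?_
  · intro s ε hε
    obtain ⟨s', h1, h2, h3⟩ := h_zero s.1 s.2.1 ε hε
    exact ⟨⟨s', h1, fun j hj => (h2 j hj).trans (s.2.2 j hj)⟩, fun j hj => h2 j (by omega), h3⟩
  · intro j hj E hE1 hE2 s ε hε
    obtain ⟨s', h1, h2, h3⟩ := h j hj E hE1 hE2 s.1 s.2.1 ε hε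
    exact ⟨⟨s', h1, fun j hj => (h2 j hj).trans (s.2.2 j hj)⟩, fun j hj => h2 j (by omega), h3⟩

lemma h_step (k : ℕ) (hk : k < C.n) (h : ∀ j < k, C.Hs j) : C.Hs k := by
  intro E hE1 hE2 s0 hs0 ε hε
  have hgen := gen_below s0 k hk.le h
  set r : C.Below s0 → C.Below s0 → Prop := fun a b => C.Le k a.1 b.1 with hr
  set P := Lim r (fun a j => C.I a.1 j) C.g k with hP
  have hrefl : ∀ s, r s s := fun s j _ => Subset.rfl
  have htr : ∀ a b c, r a b → r b c → r a c := fun a b c h1 h2 j hj => (h1 j hj).trans (h2 j hj)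
  have hmono : ∀ a b, r a b → P a ⊆ P b := fun a b h => lim_mono htr _ _ k a b h
  have hPI : ∀ s, ∀ x ∈ P s, ∀ j ≤ k, ch C.g x j ∈ C.I s.1 j := by
    intro s x hx j hj
    exact lim_mem_closed hx hj isCompact_uIcc.isClosed
      (fun s' hs' => ⟨_, mem_I _ true j, hs' j hj (mem_I _ true j)⟩)
  set ψ : ℝ → ℝ := fun r => C.tc s0 (k + 1) r (C.n - (k + 1)) with hψ
  have hψD : Dbx ψ := tc_dbx _ _ _
  let root : C.Below s0 := ⟨s0, hs0, fun j _ => Subset.rfl⟩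
  have hcolor : ∀ s : C.Below s0, ∀ x ∈ P s, ∃ c, (x, ψ (ch C.g x (k + 1))) ∈ C.W c :=
    fun s x hx => tc_cov hs0 hk (s.2.2 0 (Nat.zero_le _) (hPI s x hx 0 (Nat.zero_le _)))
  obtain ⟨c, μ, hμ, s1, -, h1⟩ := hgen.margin hmono root C.W C.hW
    (fun x => ψ (ch C.g x (k + 1))) (hcolor root)
  -- the closed sets `T`
  let T : C.Below s0 → Set ℝ := fun s => closure ((fun x => ch C.g x k) '' P s)
  have hTmono : ∀ a b, r a b → T a ⊆ T b := fun a b hab =>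
    closure_mono (image_mono (hmono a b hab))
  have hTI : ∀ s, T s ⊆ C.I s.1 k := by
    intro s
    apply closure_minimal _ isCompact_uIcc.isClosed
    rintro _ ⟨x, hx, rfl⟩
    exact hPI s x hx k le_rfl
  have hosc : ∀ δ > 0, ∀ s, ∃ s', r s' s ∧ ∃ e, ∀ y ∈ T s', |C.g k y - e| < δ := by
    intro δ hδ s
    obtain ⟨F, e, hF1, hF2, hF3⟩ := C.hB k δ hδ
    obtain ⟨i, s', h2, h3⟩ := hgen.baire hmono s (fun i => {x | ch C.g x k ∈ F i})
      (fun x _ => hF2 _)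
    refine ⟨s', h2, e i, fun y hy => hF3 i y ?_⟩
    refine closure_minimal ?_ (hF1 i) hy
    rintro _ ⟨x, hx, rfl⟩
    refine lim_mem_closed hx le_rfl (hF1 i) (fun s'' hs'' => ?_)
    obtain ⟨x', hx'1, hx'2⟩ := h3 s'' hs''
    exact ⟨_, hPI s'' x' hx'1 k le_rfl, hx'2⟩
  obtain ⟨x0, hx0⟩ := hgen s1
    (fun i s => ∃ e, ∀ y ∈ T s, |C.g k y - e| < 1 / ((i : ℝ) + 1))
    (fun i s _ => hosc _ (by positivity) s)
  set y0 := ch C.g x0 k with hy0
  set w := C.g k y0 with hw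
  obtain ⟨sa, -, -, hsa⟩ := hx0 0
  obtain ⟨d, hd⟩ := hcolor sa x0 hsa
  obtain ⟨η, hη, hbox⟩ := open_box (C.hW d) hd
  obtain ⟨ε1, hε1, hbox1⟩ := open_box hE1.isOpen_compl (show (y0, w) ∈ Eᶜ from hE2 y0)
  set ε2 := min η (min ε1 (ε / 2)) with hε2
  have hε2p : 0 < ε2 := lt_min hη (lt_min hε1 (by linarith))
  have hε2a : ε2 ≤ η := min_le_left _ _
  have hε2b : ε2 ≤ ε1 := (min_le_right _ _).trans (min_le_left _ _)
  have hε2c : ε2 ≤ ε / 2 := (min_le_right _ _).trans (min_le_right _ _)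
  obtain ⟨rp, hp1, hp2, hp3, hp4⟩ := hψD.cluster (w := w) (v := w + 1) hε2p (by linarith)
  obtain ⟨rm, hm1, hm2, hm3, hm4⟩ := hψD.cluster (w := w) (v := w - 1) hε2p (by linarith)
  have hp5 : w < rp := by
    rw [uIcc_of_le (by linarith)] at hp1
    exact lt_of_le_of_ne hp1.1 hp2.symm
  have hm5 : rm < w := by
    rw [uIcc_of_ge (by linarith)] at hm1
    exact lt_of_le_of_ne hm1.2 hm2
  have hθ : 0 < min (rp - w) (w - rm) / 2 := by
    have : 0 < min (rp - w) (w - rm) := lt_min (by linarith) (by linarith)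
    linarith
  obtain ⟨i, hi⟩ := exists_nat_one_div_lt hθ
  obtain ⟨sb, hsb1, ⟨e, he⟩, hsb3⟩ := hx0 i
  obtain ⟨s2, hs2a, hs2b⟩ := hsb3 (min ε2 (μ / 2)) (lt_min hε2p (by linarith))
  have hT2 : ∀ y ∈ T s2, rm < C.g k y ∧ C.g k y < rp := by
    intro y hy
    have h2 := he y (hTmono _ _ hs2a hy)
    have h3 := he y0 (subset_closure ⟨x0, hsb3, rfl⟩)
    have h4 := min_le_left (rp - w) (w - rm)
    have h5 := min_le_right (rp - w) (w - rm)
    rw [abs_lt] at h2 h3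
    constructor <;> linarith [h2.1, h2.2, h3.1, h3.2]
  have hI0 : ∀ u ∈ C.I s2.1 0, |u - x0| < min ε2 (μ / 2) := by
    intro u hu
    have := hs2b 0 (Nat.zero_le _) hu
    simpa [Real.dist_eq] using this
  have hIk : ∀ u ∈ C.I s2.1 k, |u - y0| < ε1 := by
    intro u hu
    have := hs2b k le_rfl hu
    rw [mem_ball, Real.dist_eq] at this
    exact lt_of_lt_of_le this ((min_le_left _ _).trans hε2b)
  have hcol_d : ∀ ρ, |ψ ρ - ψ w| < ε2 → ∀ u ∈ C.I s2.1 0, (u, ψ ρ) ∈ C.W d := by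
    intro ρ hρ u hu
    exact hbox u _ (lt_of_lt_of_le (hI0 u hu) ((min_le_left _ _).trans hε2a))
      (lt_of_lt_of_le hρ hε2a)
  obtain ⟨x, hx, hxm⟩ := h1 s2 (htr _ _ _ hs2a hsb1)
  set y := ch C.g x k with hy
  have hyT : y ∈ T s2 := subset_closure ⟨x, hx, rfl⟩
  have hyI : y ∈ C.I s2.1 k := hTI _ hyT
  have hcol_c : ∀ u ∈ C.I s2.1 0, (u, ψ (C.g k y)) ∈ C.W c := by
    intro u hu
    apply hxm u
    have h2 := hI0 u hu
    have h3 := hI0 x (hPI s2 x hx 0 (Nat.zero_le _))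
    have h4 := min_le_right ε2 (μ / 2)
    rw [abs_lt] at h2 h3 ⊢
    constructor <;> linarith [h2.1, h2.2, h3.1, h3.2]
  set v := ch C.g (s2.1 (!c)) k with hv
  have hvI : v ∈ C.I s2.1 k := mem_I _ _ _
  have hcol_v : ∀ u ∈ C.I s2.1 0, (u, ψ (C.g k v)) ∈ C.W (!c) := by
    intro u hu
    have h2 := tc_eq (C := C) (s := s0) (m := k + 1) (x := s2.1 (!c)) (C.n - (k + 1))
      (fun j hj => s2.2.2 j (by omega) (mem_I _ _ _))
    rw [show k + 1 + (C.n - (k + 1)) = C.n by omega] at h2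
    show (u, C.tc s0 (k + 1) (ch C.g (s2.1 (!c)) (k + 1)) (C.n - (k + 1))) ∈ _
    rw [h2]
    exact s2.2.1.2 _ u hu
  -- finishing: a state whose level `k + 1` lies in `[rm, rp]`
  have hfinish : ∀ ρ, ρ ∈ uIcc (C.g k y) (C.g k v) → rm ≤ ρ → ρ ≤ rp →
      (∀ u ∈ C.I s2.1 0, (u, ψ ρ) ∈ C.W (!c)) →
      ∃ s', C.St s' ∧ C.Le C.n s' s0 ∧ Small (C.I s' (k + 1)) ε ∧
        ∀ y ∈ C.I s' k, ∀ z ∈ C.I s' (k + 1), (y, z) ∉ E := by
    intro ρ hρ1 hρ2 hρ3 hρ4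
    obtain ⟨s3, h31, h32, h33, -, h35⟩ := build' s0 s2.1 s2.2.1 s2.2.2 k hk y v (C.g k y) ρ c hyI hvI
      ((uIcc_subset_uIcc left_mem_uIcc hρ1).trans (C.hD k _ _)) hcol_c hρ4
    have hz : ∀ z ∈ C.I s3 (k + 1), |z - w| < ε2 := by
      intro z hz
      have h2 : z ∈ Icc rm rp :=
        uIcc_subset_Icc ⟨(hT2 y hyT).1.le, (hT2 y hyT).2.le⟩ ⟨hρ2, hρ3⟩ (h35 hz)
      rw [abs_lt] at hp3 hm3 ⊢
      constructor <;> linarith [h2.1, h2.2, hp3.2, hm3.1]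
    refine ⟨s3, h31, h32, fun a ha b hb => ?_, fun a ha z hz' => ?_⟩
    · have h2 := hz a ha
      have h3 := hz b hb
      rw [abs_lt] at h2 h3 ⊢
      constructor <;> linarith [h2.1, h2.2, h3.1, h3.2]
    · exact hbox1 a z (hIk a (h33 k le_rfl ha)) (lt_of_lt_of_le (hz z hz') hε2b)
  by_cases hβ : rm ≤ C.g k v ∧ C.g k v ≤ rp
  · exact hfinish _ right_mem_uIcc hβ.1 hβ.2 hcol_v
  -- the cut point
  obtain ⟨ρ, hρ1, hρ2, hρ3, hρ4, hρ5⟩ : ∃ ρ, rm ≤ ρ ∧ ρ ≤ rp ∧ |ψ ρ - ψ w| < ε2 ∧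
      (∀ w', rm < w' → w' < rp → ρ ∈ uIcc w' (C.g k v)) ∧ ∀ w', rm < w' → w' < rp → w' ≠ ρ := by
    rw [not_and_or, not_le, not_le] at hβ
    rcases hβ with hβ | hβ
    · refine ⟨rm, le_rfl, by linarith, hm4, fun w' h1 _ => ?_, fun w' h1 _ => h1.ne'⟩
      rw [mem_uIcc]; right; exact ⟨hβ.le, h1.le⟩
    · refine ⟨rp, by linarith, le_rfl, hp4, fun w' _ h1 => ?_, fun w' _ h1 => h1.ne⟩
      rw [mem_uIcc]; left; exact ⟨h1.le, hβ.le⟩
  have hcol_ρ := hcol_d ρ hρ3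
  revert hcol_ρ
  refine bool_ind (Q := fun d => (∀ u ∈ C.I s2.1 0, (u, ψ ρ) ∈ C.W d) → _) c ?_ ?_ d
  · intro hcol_ρ
    exfalso
    obtain ⟨t, ht, hgap⟩ := gap (T := T s2) isClosed_closure ⟨y, hyT⟩ v
    obtain ⟨y', hy'1, hy'2⟩ := C.hD k t v (hρ4 _ (hT2 t ht).1 (hT2 t ht).2)
    have hy't : y' ≠ t := by
      intro he'
      rw [he'] at hy'2
      exact hρ5 _ (hT2 t ht).1 (hT2 t ht).2 hy'2
    have hy'I : y' ∈ C.I s2.1 k := I_ord _ _ (hTI _ ht) hvI hy'1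
    obtain ⟨s3, h31, h32, h33, h34, -⟩ := build' s0 s2.1 s2.2.1 s2.2.2 k hk y' v ρ (C.g k v) c hy'I
      hvI (by rw [← hy'2]; exact C.hD k _ _) hcol_ρ hcol_v
    obtain ⟨z, hz⟩ := hgen.nonempty hrefl hmono ⟨s3, h31, h32⟩
    have hzT : ch C.g z k ∈ T ⟨s3, h31, h32⟩ := subset_closure ⟨z, hz, rfl⟩
    exact hgap y' hy'1 hy't _ (h34 (hTI _ hzT)) (hTmono ⟨s3, h31, h32⟩ s2 h33 hzT)
  · intro hcol_ρ
    exact hfinish ρ (hρ4 _ (hT2 y hyT).1 (hT2 y hyT).2) hρ1 hρ2 hcol_ρ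

lemma h_all (k : ℕ) (hk : k ≤ C.n) : ∀ j < k, C.Hs j := by
  induction k with
  | zero => intro j hj; exact absurd hj (Nat.not_lt_zero _)
  | succ k ih =>
    intro j hj
    rcases Nat.lt_or_ge j k with h | h
    · exact ih (by omega) j h
    · have : j = k := by omega
      rw [this]; exact h_step k (by omega) (ih (by omega))

theorem no_state (s0 : Bool → ℝ) (hs0 : C.St s0) : False := by
  have hgen := gen_below s0 C.n le_rfl (h_all C.n le_rfl)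
  let root : C.Below s0 := ⟨s0, hs0, fun j _ => Subset.rfl⟩
  obtain ⟨x, hx⟩ := hgen.nonempty (fun s j _ => Subset.rfl)
    (fun a b h => lim_mono (fun a b c h1 h2 j hj => (h1 j hj).trans (h2 j hj)) _ _ _ a b h) root
  have hx0 : x ∈ C.I s0 0 :=
    lim_mem_closed (j := 0) hx (Nat.zero_le _) isCompact_uIcc.isClosed
      (fun s' hs' => ⟨_, mem_I _ true 0, hs' 0 (Nat.zero_le _) (mem_I _ true 0)⟩)
  obtain ⟨c, hc⟩ := C.hcov x (hs0.sub hx0)
  obtain ⟨η, hη, hbox⟩ := open_box (C.hW c) hc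
  obtain ⟨s, -, hs⟩ := hx η hη
  have h1 := hs 0 (Nat.zero_le _) (mem_I s.1 (!c) 0)
  have h2 := hs C.n le_rfl (mem_I s.1 (!c) C.n)
  rw [mem_ball, Real.dist_eq] at h1 h2
  exact C.hdis c _ (hbox _ _ h1 h2) (s.2.1.2 (!c) _ (mem_I s.1 (!c) 0))

theorem one_colour (p : Bool → ℝ) (hp : ∀ c, p c ∈ Icc (0 : ℝ) 1)
    (hc : ∀ c, (p c, ch C.g (p c) C.n) ∈ C.W c) : False := by
  have hsub : uIcc (p true) (p false) ⊆ Icc 0 1 := uIcc_subset_Icc (hp true) (hp false)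
  obtain ⟨q, hq1, -, hq3⟩ := strong_pair (dbx_ch C.hD C.n) C.W C.hW p hc
    (fun x hx => C.hcov x (hsub hx)) 1 one_pos
  exact no_state q ⟨fun c => hsub (hq1 c), hq3⟩

end Ctx

end Pool.Agent.H924Z.Conn
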