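import Pool.Agent.H924Z.ConnBasic

set_option autoImplicit false

/-! Strong pairs for one Darboux function, and lifting along chains of covers. -/

namespace Pool.Agent.H924Z.Conn

open Set Metric

/-- the pair with entry `a` at colour `c` and entry `b` at the other colour -/
def pairOf (c : Bool) (a b : ℝ) : Bool → ℝ := fun d => if d = c then a else b

@[simp] lemma pairOf_self (c : Bool) (a b : ℝ) : pairOf c a b c = a := by simp [pairOf]
@[simp] lemma pairOf_not (c : Bool) (a b : ℝ) : pairOf c a b (!c) = b := by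
  cases c <;> simp [pairOf]

lemma bool_ind {Q : Bool → Prop} (c : Bool) (h1 : Q c) (h2 : Q (!c)) : ∀ d, Q d := by
  intro d; cases c <;> cases d <;> simp_all

lemma uIcc_bool (f : Bool → ℝ) (c : Bool) : uIcc (f true) (f false) = uIcc (f c) (f (!c)) := by
  cases c
  · simp [uIcc_comm]
  · simp

lemma small_uIcc {a b ε : ℝ} (h : |a - b| < ε) : Small (uIcc a b) ε := by
  intro u hu v hv
  rw [mem_uIcc] at hu hv
  rw [abs_lt] at h ⊢
  rcases hu with hu | hu <;> rcases hv with hv | hv <;> constructor <;>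
    linarith [hu.1, hu.2, hv.1, hv.2, h.1, h.2]

lemma b1_zero : B1 (fun _ => 0) :=
  fun _ hε => ⟨fun _ => univ, fun _ => 0, fun _ => isClosed_univ, fun _ => ⟨0, trivial⟩,
    fun _ _ _ => by simpa using hε⟩

lemma open_box {W : Set (ℝ × ℝ)} (hW : IsOpen W) {x z : ℝ} (h : (x, z) ∈ W) :
    ∃ η > 0, ∀ u v, |u - x| < η → |v - z| < η → (u, v) ∈ W := by
  obtain ⟨η, hη, hb⟩ := Metric.isOpen_iff.1 hW _ h
  refine ⟨η, hη, fun u v hu hv => hb ?_⟩
  rw [mem_ball, Prod.dist_eq, Real.dist_eq, Real.dist_eq]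
  exact max_lt hu hv

/-- the Baire category step: a colour and a uniform horizontal margin that occur everywhere
below some state -/
lemma Gen.margin {σ : Type} {r : σ → σ → Prop} {P : σ → Set ℝ} (h : Gen r P)
    (hmono : ∀ a b, r a b → P a ⊆ P b) (s0 : σ) (W : Bool → Set (ℝ × ℝ))
    (hW : ∀ c, IsOpen (W c)) (φ : ℝ → ℝ) (hcov : ∀ x ∈ P s0, ∃ c, (x, φ x) ∈ W c) :
    ∃ c, ∃ μ > 0, ∃ s1, r s1 s0 ∧ ∀ s, r s s1 → ∃ x ∈ P s, ∀ u, |u - x| < μ → (u, φ x) ∈ W c := by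
  obtain ⟨e, he⟩ := exists_surjective_nat (ℕ × Bool)
  obtain ⟨i, s1, h1, h2⟩ := h.baire hmono s0
    (fun i => {x | ∀ u, |u - x| < 1 / (((e i).1 : ℝ) + 1) → (u, φ x) ∈ W (e i).2}) (by
      intro x hx
      obtain ⟨c, hc⟩ := hcov x hx
      obtain ⟨η, hη, hb⟩ := open_box (hW c) hc
      obtain ⟨m, hm⟩ := exists_nat_one_div_lt hη
      obtain ⟨i, hi⟩ := he (m, c)
      refine ⟨i, fun u hu => ?_⟩
      rw [hi] at hu ⊢
      exact hb u _ (lt_trans hu hm) (by simpa using hη))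
  exact ⟨(e i).2, _, by positivity, s1, h1, h2⟩

lemma strong_pair {φ : ℝ → ℝ} (hφ : Dbx φ) (W : Bool → Set (ℝ × ℝ)) (hW : ∀ c, IsOpen (W c))
    (p : Bool → ℝ) (hp : ∀ c, (p c, φ (p c)) ∈ W c)
    (hcov : ∀ x ∈ uIcc (p true) (p false), ∃ c, (x, φ x) ∈ W c) (ε : ℝ) (hε : 0 < ε) :
    ∃ q : Bool → ℝ, (∀ c, q c ∈ uIcc (p true) (p false)) ∧ |q true - q false| < ε ∧
      ∀ c, ∀ x ∈ uIcc (q true) (q false), (x, φ (q c)) ∈ W c := by
  set A := uIcc (p true) (p false) with hA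
  let σ := {q : Bool → ℝ // ∀ c, q c ∈ A ∧ (q c, φ (q c)) ∈ W c}
  let K : σ → ℕ → Set ℝ := fun q _ => uIcc (q.1 true) (q.1 false)
  let r : σ → σ → Prop := fun a b => K a 0 ⊆ K b 0
  have hrefl : ∀ s, r s s := fun s => Subset.rfl
  have htr : ∀ a b c, r a b → r b c → r a c := fun a b c h1 h2 => Subset.trans h1 h2
  have hKA : ∀ s : σ, K s 0 ⊆ A := fun s => uIcc_subset_uIcc (s.2 true).1 (s.2 false).1
  have hmk : ∀ (c : Bool) (a b : ℝ), a ∈ A → b ∈ A → (a, φ a) ∈ W c → (b, φ b) ∈ W (!c) →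
      ∃ s : σ, K s 0 = uIcc a b := by
    intro c a b ha hb ha' hb'
    refine ⟨⟨pairOf c a b, bool_ind c (by simp [ha, ha']) (by simp [hb, hb'])⟩, ?_⟩
    show uIcc (pairOf c a b true) (pairOf c a b false) = _
    rw [uIcc_bool _ c]; simp
  have hhalf : ∀ s : σ, ∃ s' : σ, r s' s ∧ ∀ δ, Small (K s 0) δ → Small (K s' 0) (δ / 2) := by
    intro s
    set m := (s.1 true + s.1 false) / 2 with hm
    have hmem : m ∈ K s 0 := by
      show m ∈ uIcc (s.1 true) (s.1 false)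
      rw [mem_uIcc]
      rcases le_total (s.1 true) (s.1 false) with h | h
      · left; constructor <;> linarith
      · right; constructor <;> linarith
    obtain ⟨d, hd⟩ := hcov m (hKA s hmem)
    obtain ⟨s', hs'⟩ := hmk d m (s.1 (!d)) (hKA s hmem) (s.2 _).1 hd (s.2 _).2
    refine ⟨s', ?_, fun δ hδ => ?_⟩
    · show K s' 0 ⊆ K s 0
      rw [hs']
      refine uIcc_subset_uIcc hmem ?_
      show _ ∈ uIcc (s.1 true) (s.1 false)
      rw [uIcc_bool _ d]; exact right_mem_uIcc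
    · rw [hs']
      apply small_uIcc
      have := hδ (s.1 true) left_mem_uIcc (s.1 false) right_mem_uIcc
      rw [abs_lt] at this ⊢
      cases d <;> simp only [Bool.not_true, Bool.not_false] <;> constructor <;>
        linarith [this.1, this.2]
  have hsmall : ∀ s : σ, ∀ δ > 0, ∃ s' : σ, r s' s ∧ Small (K s' 0) δ := by
    intro s δ hδ
    set L := |s.1 true - s.1 false| + 1 with hL
    have hL0 : 0 < L := by positivity
    have hit : ∀ N : ℕ, ∃ s' : σ, r s' s ∧ Small (K s' 0) (L * (1 / 2) ^ N) := by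
      intro N
      induction N with
      | zero => exact ⟨s, hrefl s, small_uIcc (by simp [hL])⟩
      | succ N ih =>
        obtain ⟨s1, h1, h2⟩ := ih
        obtain ⟨s2, h3, h4⟩ := hhalf s1
        refine ⟨s2, htr _ _ _ h3 h1, ?_⟩
        have := h4 _ h2
        rwa [show L * (1 / 2) ^ N / 2 = L * (1 / 2) ^ (N + 1) by ring] at this
    obtain ⟨N, hN⟩ := exists_pow_lt_of_lt_one (div_pos hδ hL0) (by norm_num : (1 / 2 : ℝ) < 1)
    obtain ⟨s', h1, h2⟩ := hit N
    refine ⟨s', h1, fun u hu v hv => lt_trans (h2 u hu v hv) ?_⟩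
    rw [lt_div_iff₀ hL0] at hN
    linarith
  have hgen : Gen r (Lim r K (fun _ _ => 0) 0) :=
    gen_lim r hrefl htr K _ 0 (fun _ => b1_zero) (fun a b h _ _ => h) (fun _ _ => isCompact_uIcc)
      (fun _ _ => nonempty_uIcc) hsmall (fun j hj => absurd hj (Nat.not_lt_zero _))
  set P := Lim r K (fun _ _ => (0 : ℝ)) 0 with hP
  have hmono : ∀ a b, r a b → P a ⊆ P b := fun a b h => lim_mono htr K _ 0 a b h
  have hPK : ∀ s, P s ⊆ K s 0 := by
    intro s x hx
    exact lim_mem_closed (j := 0) hx le_rfl isCompact_uIcc.isClosed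
      (fun s' hs' => ⟨_, left_mem_uIcc, hs' left_mem_uIcc⟩)
  have hPc : ∀ s, IsClosed (P s) := by
    intro s
    apply isClosed_of_closure_subset
    intro x hx δ hδ
    obtain ⟨y, hy, hxy⟩ := Metric.mem_closure_iff.1 hx (δ / 2) (by linarith)
    obtain ⟨s', h1, h2⟩ := hy (δ / 2) (by linarith)
    refine ⟨s', h1, fun j hj z hz => ?_⟩
    have hj0 : j = 0 := Nat.le_zero.1 hj
    subst hj0
    have h3 := h2 0 le_rfl hz
    simp only [ch_zero, mem_ball] at h3 ⊢
    have := dist_triangle z y x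
    rw [dist_comm] at hxy
    linarith
  let s0 : σ := ⟨p, fun c => ⟨by rw [hA, uIcc_bool _ c]; exact left_mem_uIcc, hp c⟩⟩
  obtain ⟨c, μ, hμ, s1', h1', h2'⟩ := hgen.margin hmono s0 W hW φ
    (fun x hx => hcov x (hKA _ (hPK _ hx)))
  obtain ⟨s1, h1, hs1⟩ := hsmall s1' (min μ ε) (lt_min hμ hε)
  -- a limit point of the other colour
  obtain ⟨x', hx', hc'⟩ : ∃ x' ∈ P s1, (x', φ x') ∈ W (!c) := by
    set v := s1.1 (!c) with hv
    have hvK : v ∈ K s1 0 := by
      show _ ∈ uIcc (s1.1 true) (s1.1 false)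
      rw [uIcc_bool _ c]; exact right_mem_uIcc
    obtain ⟨t, ht, hgap⟩ := gap (hPc s1) (hgen.nonempty hrefl hmono s1) v
    by_cases hvt : v = t
    · exact ⟨t, ht, by rw [← hvt]; exact (s1.2 _).2⟩
    obtain ⟨d, hd⟩ := hcov t (hKA _ (hPK _ ht))
    revert hd
    refine bool_ind (Q := fun d => (t, φ t) ∈ W d → _) c ?_ (fun h => ⟨t, ht, h⟩) d
    intro hd
    exfalso
    obtain ⟨η, hη, hb⟩ := open_box (hW c) hd
    obtain ⟨y, hy1, hy2, hy3, hy4⟩ := hφ.cluster hη hvt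
    have hyK : y ∈ K s1 0 := uIcc_subset_uIcc (hPK _ ht) hvK hy1
    obtain ⟨s, hs⟩ := hmk c y v (hKA _ hyK) (hKA _ hvK) (hb _ _ hy3 hy4) (s1.2 _).2
    have hr : r s s1 := by
      show K s 0 ⊆ K s1 0
      rw [hs]; exact uIcc_subset_uIcc hyK hvK
    obtain ⟨z, hz⟩ := hgen.nonempty hrefl hmono s
    exact hgap y hy1 hy2 z (by rw [← hs]; exact hPK _ hz) (hmono _ _ hr hz)
  obtain ⟨η, hη, hb⟩ := open_box (hW _) hc'
  obtain ⟨s2, h3, h4⟩ := hx' η hη
  obtain ⟨x, hx, hxm⟩ := h2' s2 (htr _ _ _ h3 h1)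
  have hx1 : x ∈ K s1 0 := h3 (hPK _ hx)
  have hx'1 : x' ∈ K s1 0 := hPK _ hx'
  have hxb : |x - x'| < η := by
    have := h4 0 le_rfl (hPK _ hx)
    simpa [Real.dist_eq] using this
  have hI : uIcc (pairOf c x x' true) (pairOf c x x' false) = uIcc x x' := by
    rw [uIcc_bool _ c]; simp
  refine ⟨pairOf c x x', bool_ind c (by simpa using hKA _ hx1) (by simpa using hKA _ hx'1), ?_, ?_⟩
  · have h5 : ∀ d, pairOf c x x' d ∈ K s1 0 := bool_ind c (by simpa) (by simpa)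
    exact lt_of_lt_of_le (hs1 _ (h5 true) _ (h5 false)) (min_le_right _ _)
  · rw [hI]
    refine bool_ind c ?_ ?_
    · intro u hu
      rw [pairOf_self]
      exact hxm u (lt_of_lt_of_le (hs1 _ (uIcc_subset_uIcc hx1 hx'1 hu) _ hx1) (min_le_left _ _))
    · intro u hu
      rw [pairOf_not]
      refine hb u _ ?_ (by simpa using hη)
      exact small_uIcc hxb u hu x' right_mem_uIcc

/-- lifting a point along a chain of covers -/
lemma lift_chain (g : ℕ → ℝ → ℝ) (J : ℕ → Set ℝ) (m : ℕ)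
    (h : ∀ j < m, J (j + 1) ⊆ g j '' J j) :
    ∀ z ∈ J m, ∃ a, ch g a m = z ∧ ∀ j ≤ m, ch g a j ∈ J j := by
  induction m with
  | zero =>
    intro z hz
    exact ⟨z, rfl, fun j hj => by rw [Nat.le_zero.1 hj]; exact hz⟩
  | succ m ih =>
    intro z hz
    obtain ⟨y, hy, rfl⟩ := h m (by omega) hz
    obtain ⟨a, h1, h2⟩ := ih (fun j hj => h j (by omega)) y hy
    refine ⟨a, by rw [ch_succ, h1], fun j hj => ?_⟩
    rcases Nat.lt_or_ge j (m + 1) with h3 | h3
    · exact h2 j (by omega)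
    · have : j = m + 1 := by omega
      rw [this, ch_succ, h1]; exact hz

end Pool.Agent.H924Z.Conn
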