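import Pool.Agent.H924Z.LarsenPat

set_option autoImplicit false

namespace Pool.Agent.H924Z.Larsen

open Module Submodule

variable {F : Type} [Field F] {V : Type} [AddCommGroup V] [Module F V]

/-- The first `s` terms of a sequence of vectors are independent. -/
def LI (F : Type) [Field F] {V : Type} [AddCommGroup V] [Module F V] (f : ℕ → V) (s : ℕ) : Prop :=
  LinearIndependent F (fun i : Fin s => f i.val)

/-- The span of the first `s` terms. -/
def Sp (F : Type) [Field F] {V : Type} [AddCommGroup V] [Module F V] (f : ℕ → V) (s : ℕ) :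
    Submodule F V := span F (f '' Set.Iio s)

theorem range_fin (f : ℕ → V) (s : ℕ) :
    Set.range (fun i : Fin s => f i.val) = f '' Set.Iio s := by
  ext x
  constructor
  · rintro ⟨i, rfl⟩; exact ⟨i.val, i.2, rfl⟩
  · rintro ⟨i, hi, rfl⟩; exact ⟨⟨i, hi⟩, rfl⟩

theorem Sp_congr {f g : ℕ → V} {s : ℕ} (h : ∀ i < s, g i = f i) : Sp F g s = Sp F f s := by
  unfold Sp
  congr 1
  exact Set.image_congr fun i hi => h i hi

theorem LI_congr {f g : ℕ → V} {s : ℕ} (h : ∀ i < s, g i = f i) (hf : LI F f s) : LI F g s := by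
  unfold LI at *
  have : (fun i : Fin s => g i.val) = fun i : Fin s => f i.val := funext fun i => h _ i.2
  rwa [this]

theorem mem_Sp (f : ℕ → V) {s i : ℕ} (h : i < s) : f i ∈ Sp F f s :=
  subset_span ⟨i, h, rfl⟩

theorem Sp_mono (f : ℕ → V) {s t : ℕ} (h : s ≤ t) : Sp F f s ≤ Sp F f t :=
  span_mono (Set.image_mono (Set.Iio_subset_Iio h))

theorem LI_succ {f : ℕ → V} {s : ℕ} : LI F f (s + 1) ↔ LI F f s ∧ f s ∉ Sp F f s := by
  unfold LI Sp
  rw [linearIndependent_finSucc', ← range_fin]
  rfl

theorem LI_update {f : ℕ → V} {s : ℕ} (hf : LI F f s) {x : V} (hx : x ∉ Sp F f s) :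
    LI F (Function.update f s x) (s + 1) := by
  have h : ∀ i < s, Function.update f s x i = f i := fun i hi =>
    Function.update_of_ne (by omega) _ _
  rw [LI_succ, Sp_congr h]
  exact ⟨LI_congr h hf, by simpa using hx⟩

theorem LI_le [FiniteDimensional F V] {f : ℕ → V} {s : ℕ} (hf : LI F f s) : s ≤ finrank F V := by
  simpa using LinearIndependent.fintype_card_le_finrank hf

theorem LI_ext [FiniteDimensional F V] (d : ℕ) : ∀ (s : ℕ) (f : ℕ → V), LI F f s →
    s + d = finrank F V → ∃ g : ℕ → V, (∀ i < s, g i = f i) ∧ LI F g (finrank F V) := by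
  induction d with
  | zero => intro s f hf hs; exact ⟨f, fun _ _ => rfl, by rwa [← hs]⟩
  | succ d ih =>
    intro s f hf hs
    have hne : Sp F f s ≠ ⊤ := by
      intro h
      have h1 : finrank F (span F (Set.range (fun i : Fin s => f i.val))) = s := by
        rw [finrank_span_eq_card hf]; simp
      rw [range_fin] at h1
      change finrank F (Sp F f s) = s at h1
      rw [h, finrank_top] at h1
      omega
    obtain ⟨x, hx⟩ : ∃ x, x ∉ Sp F f s := by
      by_contra hcon
      push Not at hcon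
      exact hne (eq_top_iff.2 fun x _ => hcon x)
    obtain ⟨g, hg, hgi⟩ := ih (s + 1) _ (LI_update hf hx) (by omega)
    exact ⟨g, fun i hi => by rw [hg i (by omega), Function.update_of_ne (by omega)], hgi⟩

theorem repr_Sp {N : ℕ} (b : Basis (Fin N) F V) (g : ℕ → V) (hb : ∀ i : Fin N, b i = g i.val)
    {s : ℕ} {x : V} (hx : x ∈ Sp F g s) (j : Fin N) (hj : s ≤ j.val) : b.repr x j = 0 := by
  unfold Sp at hx
  induction hx using span_induction with
  | mem y hy =>
    obtain ⟨t, ht, rfl⟩ := hy
    have ht' : t < s := ht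
    have := hb ⟨t, by have := j.2; omega⟩
    simp only at this
    rw [← this, b.repr_self, Finsupp.single_apply, if_neg]
    intro h
    have := congrArg Fin.val h
    simp only at this
    omega
  | zero => simp
  | add y z _ _ hy hz => simp [hy, hz]
  | smul a y _ hy => simp [hy]

theorem repr_g {N : ℕ} (b : Basis (Fin N) F V) (g : ℕ → V) (hb : ∀ i : Fin N, b i = g i.val)
    {t : ℕ} (ht : t < N) (j : Fin N) : b.repr (g t) j = if j.val = t then 1 else 0 := by
  have := hb ⟨t, ht⟩
  simp only at this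
  rw [← this, b.repr_self, Finsupp.single_apply]
  congr 1
  apply propext
  constructor
  · rintro rfl; rfl
  · intro h; exact Fin.ext h.symm

theorem basis_of_LI [FiniteDimensional F V] {N : ℕ} (hN : finrank F V = N) {g : ℕ → V}
    (hg : LI F g N) : ∃ b : Basis (Fin N) F V, ∀ i : Fin N, b i = g i.val :=
  ⟨basisOfLinearIndependentOfCardEqFinrank' _ hg (by simp [hN]), fun i => by simp⟩

/-- The zero pattern used in the splitting lemma. -/
def Pat (m : ℕ) (A : Matrix (Fin (m + 2)) (Fin (m + 2)) F) : Prop :=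
  ∃ (r : ℕ) (α β : F), 1 ≤ r ∧ r ≤ m + 1 ∧ α ≠ 0 ∧ β ≠ 0 ∧
    (∀ i j : Fin (m + 2), i.val = 0 → j.val = 1 → A i j ≠ 0) ∧
    (∀ i j : Fin (m + 2), i.val = 0 → 2 ≤ j.val → A i j = 0) ∧
    (∀ i j : Fin (m + 2), 1 ≤ i.val → i.val < r → i.val < j.val → A i j = 0) ∧
    (∀ i j : Fin (m + 2), i.val = r → r < j.val →
      A i j = (if j.val = r + 1 then α else 0) + (if j.val = m + 1 then β else 0))

theorem pat_of (m : ℕ) (B : V →ₗ[F] V) (b : Basis (Fin (m + 2)) F V) (g : ℕ → V)
    (hb : ∀ i, b i = g i.val) (r : ℕ) (α β : F) (hr1 : 1 ≤ r) (hr : r ≤ m + 1) (hα : α ≠ 0)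
    (hβ : β ≠ 0) (h0 : B (g 0) = g 1) (hmid : ∀ i, 1 ≤ i → i < r → B (g i) ∈ Sp F g (i + 1))
    (hrow : r < m + 1 → B (g r) = α • g (r + 1) + β • g (m + 1)) :
    Pat m (fun i j => b.repr (B (b i)) j) := by
  refine ⟨r, α, β, hr1, hr, hα, hβ, fun i j hi hj => ?_, fun i j hi hj => ?_,
    fun i j hi hi' hj => ?_, fun i j hi hj => ?_⟩
  · simp only
    rw [hb, hi, h0, repr_g b g hb (by omega), if_pos hj]
    exact one_ne_zero
  · simp only
    rw [hb, hi, h0, repr_g b g hb (by omega), if_neg (by omega)]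
  · simp only
    rw [hb]
    exact repr_Sp b g hb (hmid _ hi hi') j (by omega)
  · have := j.2
    simp only
    rw [hb, hi, hrow (by omega)]
    simp only [map_add, map_smul, Finsupp.add_apply, Finsupp.smul_apply, smul_eq_mul]
    rw [repr_g b g hb (by omega), repr_g b g hb (by omega)]
    simp

theorem pat_stop [FiniteDimensional F V] (m : ℕ) (hm : finrank F V = m + 2) (B : V →ₗ[F] V)
    (f : ℕ → V) (r : ℕ) (hr1 : 1 ≤ r) (hf : LI F f (r + 1)) (h0 : B (f 0) = f 1)
    (hmid : ∀ i, 1 ≤ i → i < r → B (f i) ∈ Sp F f (i + 1)) (hw : B (f r) ∉ Sp F f (r + 1))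
    (hq : r < m ∨ ∃ α : F, α ≠ 0 ∧ α ≠ 1) :
    ∃ b : Basis (Fin (m + 2)) F V, Pat m (fun i j => b.repr (B (b i)) j) := by
  have h1 := LI_update hf hw
  have h2 := LI_le h1
  obtain ⟨g, hg, hgi⟩ := LI_ext (finrank F V - (r + 1 + 1)) _ _ h1 (by omega)
  rw [hm] at hgi h2
  have hgf : ∀ i < r + 1, g i = f i := fun i hi => by
    rw [hg i (by omega), Function.update_of_ne (by omega)]
  have hgw : g (r + 1) = B (f r) := by rw [hg _ (by omega)]; simp
  obtain ⟨b0, hb0⟩ := basis_of_LI hm hgi
  by_cases hrm : r < m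
  · set g' := Function.update g (r + 1) (g (r + 1) - g (m + 1)) with hg'
    have hg'f : ∀ i, i ≠ r + 1 → g' i = g i := fun i hi => Function.update_of_ne hi _ _
    have hg'r : g' (r + 1) = g (r + 1) - g (m + 1) := by simp [hg']
    have hspan : ⊤ ≤ span F (Set.range (fun i : Fin (m + 2) => g' i.val)) := by
      rw [← b0.span_eq, span_le, range_fin]
      rintro _ ⟨i, rfl⟩
      rw [hb0]
      by_cases hi : i.val = r + 1
      · have : g i.val = g' (r + 1) + g' (m + 1) := by
          rw [hg'r, hg'f (m + 1) (by omega), hi]; abel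
        rw [this]
        exact add_mem (mem_Sp g' (by omega)) (mem_Sp g' (by omega))
      · rw [← hg'f _ hi]
        exact mem_Sp g' i.2
    refine ⟨basisOfTopLeSpanOfCardEqFinrank _ hspan (by simp [hm]),
      pat_of m B _ g' (fun i => by simp) r 1 1 hr1 (by omega) one_ne_zero one_ne_zero ?_ ?_ ?_⟩
    · rw [hg'f 0 (by omega), hg'f 1 (by omega), hgf 0 (by omega), hgf 1 (by omega), h0]
    · intro i hi hir
      rw [hg'f i (by omega), hgf i (by omega), Sp_congr (f := f) (fun t ht => by
        rw [hg'f t (by omega), hgf t (by omega)])]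
      exact hmid i hi hir
    · intro _
      rw [hg'f r (by omega), hgf r (by omega), hg'r, hg'f (m + 1) (by omega), hgw]
      simp
  · obtain ⟨α, hα0, hα1⟩ := hq.resolve_left hrm
    have hrm' : r = m := by omega
    refine ⟨b0, pat_of m B b0 g hb0 r α (1 - α) hr1 (by omega) hα0 (sub_ne_zero.2 hα1.symm)
      ?_ ?_ ?_⟩
    · rw [hgf 0 (by omega), hgf 1 (by omega), h0]
    · intro i hi hir
      rw [hgf i (by omega), Sp_congr (f := f) (fun t ht => hgf t (by omega))]
      exact hmid i hi hir
    · intro _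
      rw [hgf r (by omega), ← hrm', hgw, ← add_smul]
      simp

theorem pat_basis [FiniteDimensional F V] (m : ℕ) (hm : finrank F V = m + 2) (B : V →ₗ[F] V)
    (hB : ∀ a : F, B ≠ a • 1) (hq : 3 ≤ m ∨ ∃ α : F, α ≠ 0 ∧ α ≠ 1) :
    ∃ b : Basis (Fin (m + 2)) F V, Pat m (fun i j => b.repr (B (b i)) j) := by
  obtain ⟨e, he⟩ : ∃ e, LinearIndependent F ![e, B e] := by
    by_contra hcon
    push Not at hcon
    obtain ⟨a, ha⟩ := LinearMap.exists_eq_smul_id_of_forall_notLinearIndependent hcon
    exact hB a ha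
  set f : ℕ → V := fun i => if i = 0 then e else B e with hfdef
  have hf0 : f 0 = e := by simp [hfdef]
  have hf1 : f 1 = B e := by simp [hfdef]
  have hf : LI F f 2 := by
    unfold LI
    convert he using 1
    funext i
    fin_cases i <;> simp [hfdef]
  by_cases h1 : B (f 1) ∈ Sp F f 2
  · by_cases h2 : ∃ x, x ∉ Sp F f 2 ∧ B x ∉ Sp F (Function.update f 2 x) 3
    · obtain ⟨x, hx, hBx⟩ := h2
      have hu : ∀ i < 2, Function.update f 2 x i = f i := fun i hi =>
        Function.update_of_ne (by omega) _ _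
      refine pat_stop m hm B (Function.update f 2 x) 2 (by omega) (LI_update hf hx) ?_ ?_ ?_
        (hq.imp (fun h => by omega) id)
      · rw [hu 0 (by omega), hu 1 (by omega), hf0, hf1]
      · intro i hi hi2
        obtain rfl : i = 1 := by omega
        rw [hu 1 (by omega), Sp_congr hu]
        exact h1
      · simpa using hBx
    · push Not at h2
      obtain ⟨g, hg, hgi⟩ := LI_ext (finrank F V - 2) _ _ hf (by omega)
      rw [hm] at hgi
      obtain ⟨b0, hb0⟩ := basis_of_LI hm hgi
      refine ⟨b0, pat_of m B b0 g hb0 (m + 1) 1 1 (by omega) le_rfl one_ne_zero one_ne_zero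
        ?_ ?_ (fun h => absurd h (lt_irrefl _))⟩
      · rw [hg 0 (by omega), hg 1 (by omega), hf0, hf1]
      · intro i hi him
        by_cases hi1 : i = 1
        · subst hi1
          rw [hg 1 (by omega), Sp_congr hg]
          exact h1
        · have hx : g i ∉ Sp F f 2 := by
            intro hx
            rw [← Sp_congr hg] at hx
            have h3 := repr_Sp b0 g hb0 hx ⟨i, by omega⟩ (by simp only; omega)
            rw [repr_g b0 g hb0 (by omega)] at h3
            simp at h3
          have h3 := h2 _ hx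
          refine (show Sp F (Function.update f 2 (g i)) 3 ≤ Sp F g (i + 1) from ?_) h3
          unfold Sp
          rw [span_le]
          rintro _ ⟨t, ht, rfl⟩
          have ht' : t < 3 := ht
          by_cases ht2 : t = 2
          · subst ht2
            simp only [Function.update_self]
            exact mem_Sp g (by omega)
          · rw [Function.update_of_ne ht2, ← hg t (by omega)]
            exact mem_Sp g (by omega)
  · exact pat_stop m hm B f 1 le_rfl hf (by rw [hf0, hf1]) (fun i hi hi' => by omega) h1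
      (hq.imp (fun h => by omega) id)

end Pool.Agent.H924Z.Larsen
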