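import Mathlib

set_option autoImplicit false

namespace Pool.Agent.H924Z.Larsen

open Finset

variable {K : Type} [Field K] [Fintype K] [DecidableEq K]

theorem fib_le (k : ℕ) (hk : 1 ≤ k) (y : K) : #{x : K | x ^ k = y} ≤ k := by
  refine le_trans ?_ (le_trans (Multiset.toFinset_card_le _) (Polynomial.card_nthRoots k y))
  refine card_le_card fun x hx => ?_
  rw [Multiset.mem_toFinset, Polynomial.mem_nthRoots (by omega)]
  simpa using hx

theorem parseval (ψ : AddChar K ℂ) (hψ : ψ.IsPrimitive) (c : K → ℂ) :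
    ∑ θ, ‖∑ a, c a * ψ (a * θ)‖ ^ 2 = Fintype.card K * ∑ a, ‖c a‖ ^ 2 := by
  have h1 : ∀ z : ℂ, ((‖z‖ ^ 2 : ℝ) : ℂ) = z * (starRingEnd ℂ) z := fun z => by
    rw [Complex.mul_conj, Complex.normSq_eq_norm_sq]
  apply Complex.ofReal_injective
  rw [Complex.ofReal_mul, Complex.ofReal_sum, Complex.ofReal_sum]
  simp only [h1, map_sum, map_mul, ← AddChar.map_neg_eq_conj, Finset.sum_mul_sum]
  rw [Finset.sum_comm, Finset.mul_sum]
  refine Finset.sum_congr rfl fun a _ => ?_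
  rw [Finset.sum_comm]
  have h2 : ∀ b, ∑ θ, c a * ψ (a * θ) * ((starRingEnd ℂ) (c b) * ψ (-(b * θ)))
      = if b = a then (Fintype.card K : ℂ) * (c a * (starRingEnd ℂ) (c a)) else 0 := by
    intro b
    have h3 : ∀ θ, c a * ψ (a * θ) * ((starRingEnd ℂ) (c b) * ψ (-(b * θ)))
        = (c a * (starRingEnd ℂ) (c b)) * ψ (θ * (a - b)) := by
      intro θ
      rw [show θ * (a - b) = a * θ + -(b * θ) by ring, AddChar.map_add_eq_mul]
      ring
    simp only [h3]
    rw [← Finset.mul_sum, AddChar.sum_mulShift _ hψ]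
    by_cases hb : b = a
    · subst hb; simp [mul_comm]
    · rw [if_neg (sub_ne_zero.2 (Ne.symm hb)), if_neg hb]; simp
  simp only [h2, Finset.sum_ite_eq', Finset.mem_univ, if_true]
  simp

theorem averaging (k : ℕ) (hk : 1 ≤ k) (φ : K → ℝ) (hφ : ∀ y, 0 ≤ φ y)
    (hinv : ∀ a h : K, h ≠ 0 → φ (a * h ^ k) = φ a) (a : K) (ha : a ≠ 0) :
    (Fintype.card K : ℝ) * φ a ≤ 2 * k * ∑ y, φ y := by
  have h1 : ((Fintype.card K : ℝ) - 1) * φ a = ∑ h ∈ univ.erase (0 : K), φ (a * h ^ k) := by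
    rw [Finset.sum_congr rfl (fun h hh => hinv a h (Finset.ne_of_mem_erase hh)), sum_const,
      card_erase_of_mem (mem_univ _), card_univ, nsmul_eq_mul,
      Nat.cast_sub Fintype.card_pos]
    simp
  have h2 : ∑ h ∈ univ.erase (0 : K), φ (a * h ^ k) ≤ ∑ h, φ (a * h ^ k) :=
    sum_le_sum_of_subset_of_nonneg (subset_univ _) fun _ _ _ => hφ _
  have h3 : ∑ h, φ (a * h ^ k) ≤ k * ∑ y, φ y := by
    rw [← Finset.sum_fiberwise' univ (fun h : K => a * h ^ k) φ, Finset.mul_sum]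
    refine sum_le_sum fun y _ => ?_
    rw [sum_const, nsmul_eq_mul]
    refine mul_le_mul_of_nonneg_right ?_ (hφ y)
    have : #{x : K | a * x ^ k = y} ≤ k := by
      refine le_trans (card_le_card fun x hx => ?_) (fib_le k hk (a⁻¹ * y))
      simp only [mem_filter, mem_univ, true_and] at hx ⊢
      rw [← hx]; field_simp
    exact_mod_cast this
  have h4 : (2 : ℝ) ≤ Fintype.card K := by exact_mod_cast Fintype.one_lt_card (α := K)
  nlinarith [hφ a]

/-- The number of representations as a sum of two powers is close to the size of the field. -/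
theorem count_ge (k : ℕ) (hk : 1 ≤ k) (θ : K) (hθ : θ ≠ 0) :
    (Fintype.card K : ℝ) ≤ #{p : K × K | p.1 ^ k + p.2 ^ k = θ}
      + 2 * k ^ 2 * Real.sqrt (Fintype.card K) := by
  set ψ := AddChar.FiniteField.primitiveChar_to_Complex K
  have hψ : ψ.IsPrimitive := AddChar.FiniteField.primitiveChar_to_Complex_isPrimitive K
  set Q : ℝ := (Fintype.card K : ℝ) with hQ
  have hQ0 : 0 < Q := by rw [hQ]; exact_mod_cast Fintype.card_pos
  set S : K → ℂ := fun a => ∑ x : K, ψ (x ^ k * a) with hS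
  have hS1 : ∀ a, S a = ∑ y, ((#{x : K | x ^ k = y} : ℕ) : ℂ) * ψ (y * a) := by
    intro a
    simp only [hS]
    rw [← Finset.sum_fiberwise' univ (fun x : K => x ^ k) (fun y => ψ (y * a))]
    simp
  have hS2 : ∑ a, ‖S a‖ ^ 2 ≤ k * Q ^ 2 := by
    simp only [hS1]
    rw [parseval ψ hψ]
    have h1 : ∑ y : K, ‖((#{x : K | x ^ k = y} : ℕ) : ℂ)‖ ^ 2
        ≤ ∑ y : K, (k : ℝ) * (#{x : K | x ^ k = y} : ℕ) := by
      refine sum_le_sum fun y _ => ?_
      rw [Complex.norm_natCast, sq]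
      exact mul_le_mul_of_nonneg_right (by exact_mod_cast fib_le k hk y) (by positivity)
    have h2 : ∑ y : K, ((#{x : K | x ^ k = y} : ℕ) : ℝ) = Q := by
      rw [hQ, ← Nat.cast_sum, ← card_univ,
        card_eq_sum_card_fiberwise (f := fun x : K => x ^ k) (t := univ) (fun _ _ => by simp)]
    rw [← Finset.mul_sum, h2] at h1
    nlinarith
  have hSinv : ∀ a h : K, h ≠ 0 → S (a * h ^ k) = S a := by
    intro a h hh
    simp only [hS]
    rw [← Equiv.sum_comp (Equiv.mulRight₀ h hh) (fun x => ψ (x ^ k * a))]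
    refine sum_congr rfl fun x _ => ?_
    simp only [Equiv.mulRight₀_apply]
    congr 1
    ring
  have hS3 : ∀ a, a ≠ 0 → ‖S a‖ ^ 2 ≤ 2 * k ^ 2 * Q := by
    intro a ha
    have := averaging k hk (fun a => ‖S a‖ ^ 2) (fun _ => by positivity)
      (fun a h hh => by rw [hSinv a h hh]) a ha
    have h2 : Q * ‖S a‖ ^ 2 ≤ Q * (2 * k ^ 2 * Q) := by
      have hk0 : (0 : ℝ) ≤ 2 * k := by positivity
      have := mul_le_mul_of_nonneg_left hS2 hk0
      nlinarith
    exact le_of_mul_le_mul_left h2 hQ0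
  set c : K → ℂ := fun a => if a = 0 then 0 else S a ^ 2 with hc
  set T : K → ℂ := fun t => ∑ a, c a * ψ (a * t) with hT
  have hc2 : ∑ a, ‖c a‖ ^ 2 ≤ 2 * k ^ 3 * Q ^ 3 := by
    have h1 : ∑ a, ‖c a‖ ^ 2 ≤ ∑ a, 2 * k ^ 2 * Q * ‖S a‖ ^ 2 := by
      refine sum_le_sum fun a _ => ?_
      by_cases ha : a = 0
      · simp only [hc, ha, if_true, norm_zero]
        have : (0 : ℝ) ≤ 2 * k ^ 2 * Q * ‖S 0‖ ^ 2 := by positivity
        simpa using this
      · simp only [hc, ha, if_false, norm_pow]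
        rw [sq (‖S a‖ ^ 2)]
        exact mul_le_mul_of_nonneg_right (hS3 a ha) (by positivity)
    rw [← Finset.mul_sum] at h1
    have h2 := mul_le_mul_of_nonneg_left hS2 (show (0 : ℝ) ≤ 2 * k ^ 2 * Q by positivity)
    nlinarith
  have hT1 : ∑ t, ‖T t‖ ^ 2 ≤ 2 * k ^ 3 * Q ^ 4 := by
    simp only [hT]
    rw [parseval ψ hψ]
    have := mul_le_mul_of_nonneg_left hc2 hQ0.le
    nlinarith
  have hTinv : ∀ t h : K, h ≠ 0 → T (t * h ^ k) = T t := by
    intro t h hh
    simp only [hT]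
    rw [← Equiv.sum_comp (Equiv.mulRight₀ (h ^ k) (pow_ne_zero _ hh))
      (fun a => c a * ψ (a * t))]
    refine sum_congr rfl fun a _ => ?_
    simp only [Equiv.mulRight₀_apply]
    have h1 : c (a * h ^ k) = c a := by
      by_cases ha : a = 0
      · simp [hc, ha]
      · simp only [hc, ha, mul_ne_zero ha (pow_ne_zero k hh), if_false, hSinv a h hh]
    rw [h1]
    congr 2
    ring
  have hT2 : ‖T (-θ)‖ ^ 2 ≤ (2 * k ^ 2 * Real.sqrt Q * Q) ^ 2 := by
    have := averaging k hk (fun a => ‖T a‖ ^ 2) (fun _ => by positivity)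
      (fun a h hh => by rw [hTinv a h hh]) (-θ) (neg_ne_zero.2 hθ)
    have h2 : Q * ‖T (-θ)‖ ^ 2 ≤ Q * (4 * k ^ 4 * Q ^ 3) := by
      have hk0 : (0 : ℝ) ≤ 2 * k := by positivity
      have := mul_le_mul_of_nonneg_left hT1 hk0
      nlinarith
    have h3 := le_of_mul_le_mul_left h2 hQ0
    have h4 : Real.sqrt Q ^ 2 = Q := Real.sq_sqrt hQ0.le
    calc _ ≤ 4 * k ^ 4 * Q ^ 3 := h3
      _ = 4 * k ^ 4 * Real.sqrt Q ^ 2 * Q ^ 2 := by rw [h4]; ring
      _ = _ := by ring
  have hT3 : ‖T (-θ)‖ ≤ 2 * k ^ 2 * Real.sqrt Q * Q :=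
    abs_le_of_sq_le_sq' hT2 (by positivity) |>.2
  set N : ℕ := #{p : K × K | p.1 ^ k + p.2 ^ k = θ} with hN
  have hmain : (Q : ℂ) * N = (Q : ℂ) ^ 2 + T (-θ) := by
    have h1 : ∑ p : K × K, ∑ a, ψ (a * (p.1 ^ k + p.2 ^ k - θ)) = (Q : ℂ) * N := by
      simp only [AddChar.sum_mulShift _ hψ, sub_eq_zero]
      rw [hN, hQ]
      simp [Finset.sum_ite, mul_comm]
    have h2 : ∀ a, ∑ p : K × K, ψ (a * (p.1 ^ k + p.2 ^ k - θ)) = S a ^ 2 * ψ (a * -θ) := by
      intro a
      simp only [hS]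
      rw [sq, Finset.sum_mul_sum, Finset.sum_mul, Fintype.sum_prod_type]
      refine sum_congr rfl fun x _ => ?_
      rw [Finset.sum_mul]
      refine sum_congr rfl fun y _ => ?_
      rw [← AddChar.map_add_eq_mul, ← AddChar.map_add_eq_mul]
      congr 1
      ring
    rw [← h1, Finset.sum_comm]
    simp only [h2, hT]
    have h3 : ∀ a, S a ^ 2 * ψ (a * -θ)
        = (if a = 0 then (Q : ℂ) ^ 2 else 0) + c a * ψ (a * -θ) := by
      intro a
      by_cases ha : a = 0
      · simp [hc, ha, hS, hQ]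
      · simp [hc, ha]
    simp only [h3, Finset.sum_add_distrib, Finset.sum_ite_eq', mem_univ, if_true]
  have h5 : Q ^ 2 ≤ Q * N + ‖T (-θ)‖ := by
    have h1 : ((Q ^ 2 : ℝ) : ℂ) = ((Q * N : ℝ) : ℂ) - T (-θ) := by
      push_cast
      rw [hmain]; ring
    have h2 := congrArg norm h1
    rw [Complex.norm_real, Real.norm_of_nonneg (by positivity)] at h2
    rw [h2]
    refine (norm_sub_le _ _).trans ?_
    rw [Complex.norm_real, Real.norm_of_nonneg (by positivity)]
  have h6 : Q * Q ≤ Q * (N + 2 * k ^ 2 * Real.sqrt Q) := by nlinarith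
  exact le_of_mul_le_mul_left h6 hQ0

/-- A representation avoiding a small set of values. -/
theorem exists_rep (k : ℕ) (hk : 1 ≤ k) (θ : K) (hθ : θ ≠ 0) (Bad : Finset K)
    (hB : (#Bad : ℝ) ≤ 4 * Real.sqrt (Fintype.card K)) (hQ : 100 * k ^ 4 < Fintype.card K) :
    ∃ μ ν : K, μ ^ k + ν ^ k = θ ∧ μ ^ k ∉ Bad ∧ ν ^ k ∉ Bad := by
  by_contra hcon
  push Not at hcon
  have hpre : #{x : K | x ^ k ∈ Bad} ≤ k * #Bad := by
    refine card_le_mul_card_image_of_maps_to (f := fun x : K => x ^ k)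
      (fun x hx => by simpa using hx) k fun y _ => ?_
    refine le_trans (card_le_card fun x hx => ?_) (fib_le k hk y)
    simp only [mem_filter, mem_univ, true_and] at hx ⊢
    exact hx.2
  have h1 : #{p : K × K | p.1 ^ k + p.2 ^ k = θ ∧ p.1 ^ k ∈ Bad} ≤ k * (k * #Bad) := by
    refine le_trans (card_le_mul_card_image_of_maps_to (f := fun p : K × K => p.1)
      (t := {x : K | x ^ k ∈ Bad}) (fun p hp => ?_) k fun y _ => ?_) (Nat.mul_le_mul_left _ hpre)
    · simp only [mem_filter, mem_univ, true_and] at hp ⊢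
      exact hp.2
    · refine le_trans (card_le_card_of_injOn (fun p : K × K => p.2) (fun p hp => ?_) ?_)
        (fib_le k hk (θ - y ^ k))
      · simp only [coe_filter, mem_filter, mem_univ, true_and, Set.mem_ofPred_eq] at hp ⊢
        rw [← hp.1.1, hp.2]; ring
      · intro p hp p' hp' h
        simp only [coe_filter, mem_filter, mem_univ, true_and, Set.mem_ofPred_eq] at hp hp'
        exact Prod.ext (hp.2.trans hp'.2.symm) h
  have h2 : #{p : K × K | p.1 ^ k + p.2 ^ k = θ ∧ p.2 ^ k ∈ Bad} ≤ k * (k * #Bad) := by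
    refine le_trans (card_le_mul_card_image_of_maps_to (f := fun p : K × K => p.2)
      (t := {x : K | x ^ k ∈ Bad}) (fun p hp => ?_) k fun y _ => ?_) (Nat.mul_le_mul_left _ hpre)
    · simp only [mem_filter, mem_univ, true_and] at hp ⊢
      exact hp.2
    · refine le_trans (card_le_card_of_injOn (fun p : K × K => p.1) (fun p hp => ?_) ?_)
        (fib_le k hk (θ - y ^ k))
      · simp only [coe_filter, mem_filter, mem_univ, true_and, Set.mem_ofPred_eq] at hp ⊢
        rw [← hp.1.1, hp.2]; ring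
      · intro p hp p' hp' h
        simp only [coe_filter, mem_filter, mem_univ, true_and, Set.mem_ofPred_eq] at hp hp'
        exact Prod.ext h (hp.2.trans hp'.2.symm)
  have h3 : #{p : K × K | p.1 ^ k + p.2 ^ k = θ} ≤ k * (k * #Bad) + k * (k * #Bad) := by
    refine le_trans (card_le_card fun p hp => ?_) ((card_union_le _ _).trans (add_le_add h1 h2))
    simp only [mem_filter, mem_univ, true_and, mem_union] at hp ⊢
    by_cases h : p.1 ^ k ∈ Bad
    · exact Or.inl ⟨hp, h⟩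
    · exact Or.inr ⟨hp, hcon _ _ hp h⟩
  have h4 := count_ge k hk θ hθ
  have h3' : (#{p : K × K | p.1 ^ k + p.2 ^ k = θ} : ℝ) ≤ k * (k * #Bad) + k * (k * #Bad) := by
    exact_mod_cast h3
  have hQ' : (100 : ℝ) * k ^ 4 < Fintype.card K := by exact_mod_cast hQ
  set Q : ℝ := (Fintype.card K : ℝ)
  have hQ0 : 0 < Q := lt_of_le_of_lt (by positivity) hQ'
  have h5 : Real.sqrt Q ^ 2 = Q := Real.sq_sqrt hQ0.le
  have h6 : 0 < Real.sqrt Q := Real.sqrt_pos.2 hQ0
  set s := Real.sqrt Q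
  have h7 : (k : ℝ) * (k * #Bad) ≤ k ^ 2 * (4 * s) := by
    rw [← mul_assoc, ← sq]
    exact mul_le_mul_of_nonneg_left hB (by positivity)
  have h8 : s * s ≤ s * (10 * k ^ 2) := by nlinarith
  have h9 := le_of_mul_le_mul_left h8 h6
  have h10 : s ^ 2 ≤ (10 * k ^ 2) ^ 2 := pow_le_pow_left₀ h6.le h9 2
  nlinarith

end Pool.Agent.H924Z.Larsen
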