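import Mathlib

set_option autoImplicit false

namespace Pool.Agent.H924Z.Larsen

open Polynomial Matrix

variable {F : Type} [Field F]

/-- Krylov vectors of a Hessenberg type matrix are triangular. -/
theorem kry_tri {ι : Type} [Fintype ι] [DecidableEq ι] (n : ℕ) (ρ : ι → ℕ)
    (hinj : Function.Injective ρ) (hsurj : ∀ t ≤ n, ∃ i, ρ i = t) (M : Matrix ι ι F) (l : ι)
    (hl : ρ l = n)
    (h0 : ∀ i j, j ≠ l → ρ j + 1 < ρ i → M i j = 0)
    (h1 : ∀ i j, j ≠ l → ρ i = ρ j + 1 → M i j ≠ 0) (i0 : ι) (hi0 : ρ i0 = 0) :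
    ∀ t ≤ n, (∀ i, t < ρ i → ((M ^ t) *ᵥ (Pi.single i0 1 : ι → F)) i = 0) ∧
      (∀ i, ρ i = t → ((M ^ t) *ᵥ (Pi.single i0 1 : ι → F)) i ≠ 0) := by
  intro t
  induction t with
  | zero =>
    intro _
    refine ⟨fun i hi => ?_, fun i hi => ?_⟩
    · have : i ≠ i0 := by rintro rfl; omega
      simp [Pi.single_apply, this]
    · have : i = i0 := hinj (by rw [hi, hi0])
      subst this
      simp
  | succ t ih =>
    intro ht
    obtain ⟨ih0, ih1⟩ := ih (by omega)
    set v := (M ^ t) *ᵥ (Pi.single i0 1 : ι → F) with hv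
    have hstep : (M ^ (t + 1)) *ᵥ (Pi.single i0 1 : ι → F) = M *ᵥ v := by
      rw [pow_succ', ← Matrix.mulVec_mulVec]
    rw [hstep]
    refine ⟨fun i hi => ?_, fun i hi => ?_⟩
    · simp only [Matrix.mulVec, dotProduct]
      refine Finset.sum_eq_zero fun j _ => ?_
      by_cases hj : t < ρ j
      · rw [ih0 j hj, mul_zero]
      · have hjl : j ≠ l := by rintro rfl; omega
        rw [h0 i j hjl (by omega), zero_mul]
    · obtain ⟨j0, hj0⟩ := hsurj t (by omega)
      simp only [Matrix.mulVec, dotProduct]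
      rw [Finset.sum_eq_single j0]
      · have hjl : j0 ≠ l := by rintro rfl; omega
        exact mul_ne_zero (h1 i j0 hjl (by omega)) (ih1 j0 hj0)
      · intro j _ hj
        by_cases hj' : t < ρ j
        · rw [ih0 j hj', mul_zero]
        · have hjl : j ≠ l := by rintro rfl; omega
          have : ρ j ≠ t := fun h => hj (hinj (by rw [h, hj0]))
          rw [h0 i j hjl (by omega), zero_mul]
      · simp

theorem aeval_mulVec {ι : Type} [Fintype ι] [DecidableEq ι] (M : Matrix ι ι F) (R : F[X]) (N : ℕ)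
    (hN : R.natDegree < N) (v : ι → F) :
    (aeval M R) *ᵥ v = ∑ t ∈ Finset.range N, R.coeff t • ((M ^ t) *ᵥ v) := by
  rw [aeval_eq_sum_range' hN, Matrix.sum_mulVec]
  refine Finset.sum_congr rfl fun t _ => ?_
  rw [Matrix.smul_mulVec]

/-- The characteristic polynomial of a Hessenberg type matrix can be prescribed by changing
one column. -/
theorem krylov {ι : Type} [Fintype ι] [DecidableEq ι] (n : ℕ) (ρ : ι → ℕ)
    (hinj : Function.Injective ρ) (hsurj : ∀ t ≤ n, ∃ i, ρ i = t)
    (hcard : Fintype.card ι = n + 1) (M0 : Matrix ι ι F) (l : ι) (hl : ρ l = n)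
    (h0 : ∀ i j, j ≠ l → ρ j + 1 < ρ i → M0 i j = 0)
    (h1 : ∀ i j, j ≠ l → ρ i = ρ j + 1 → M0 i j ≠ 0)
    (P : F[X]) (hP : P.Monic) (hd : P.natDegree = n + 1) :
    ∃ M : Matrix ι ι F, (∀ i j, j ≠ l → M i j = M0 i j) ∧ M.charpoly = P := by
  obtain ⟨i0, hi0⟩ := hsurj 0 (Nat.zero_le _)
  set e : ι → F := Pi.single i0 1 with he
  have hT0 := kry_tri n ρ hinj hsurj M0 l hl h0 h1 i0 hi0
  have hc : ((M0 ^ n) *ᵥ e) l ≠ 0 := (hT0 n le_rfl).2 l hl
  set c := ((M0 ^ n) *ᵥ e) l with hcdef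
  set w : ι → F := -(∑ t ∈ Finset.range (n + 1), P.coeff t • ((M0 ^ t) *ᵥ e))
    - M0 *ᵥ ((M0 ^ n) *ᵥ e) with hw
  set M : Matrix ι ι F := fun i j => if j = l then M0 i j + c⁻¹ * w i else M0 i j with hM
  have hagree : ∀ i j, j ≠ l → M i j = M0 i j := fun i j hj => by simp [hM, hj]
  have hmul : ∀ v : ι → F, M *ᵥ v = M0 *ᵥ v + (v l * c⁻¹) • w := by
    intro v
    funext i
    simp only [Matrix.mulVec, dotProduct, Pi.add_apply, Pi.smul_apply, smul_eq_mul]
    have : ∀ j, M i j * v j = M0 i j * v j + (if j = l then v l * c⁻¹ * w i else 0) := by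
      intro j
      by_cases hj : j = l
      · subst hj; simp [hM]; ring
      · simp [hM, hj]
    simp only [this, Finset.sum_add_distrib, Finset.sum_ite_eq', Finset.mem_univ, if_true]
  have hpow : ∀ t ≤ n, (M ^ t) *ᵥ e = (M0 ^ t) *ᵥ e := by
    intro t
    induction t with
    | zero => intro _; simp
    | succ t ih =>
      intro ht
      rw [pow_succ', ← Matrix.mulVec_mulVec, ih (by omega), hmul, (hT0 t (by omega)).1 l (by omega),
        pow_succ', ← Matrix.mulVec_mulVec]
      simp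
  have htop : (M ^ (n + 1)) *ᵥ e
      = -(∑ t ∈ Finset.range (n + 1), P.coeff t • ((M0 ^ t) *ᵥ e)) := by
    rw [pow_succ', ← Matrix.mulVec_mulVec, hpow n le_rfl, hmul, ← hcdef, mul_inv_cancel₀ hc,
      one_smul, hw]
    abel
  have hPv : (aeval M P) *ᵥ e = 0 := by
    rw [aeval_mulVec M P (n + 2) (by omega), Finset.sum_range_succ, htop]
    have : P.coeff (n + 1) = 1 := by rw [← hd]; exact hP
    rw [this, one_smul]
    rw [Finset.sum_congr rfl (fun t ht => by
      rw [hpow t (by have := Finset.mem_range.1 ht; omega)])]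
    abel
  refine ⟨M, hagree, ?_⟩
  by_contra hne
  set R := M.charpoly - P with hR
  have hR0 : R ≠ 0 := sub_ne_zero.2 hne
  have hdeg : R.natDegree ≤ n := by
    have h1' : M.charpoly.degree = P.degree := by
      rw [Matrix.charpoly_degree_eq_dim, hcard, degree_eq_natDegree hP.ne_zero, hd]
    have h2 := degree_sub_lt h1' (Matrix.charpoly_monic M).ne_zero
      (by rw [(Matrix.charpoly_monic M).leadingCoeff, hP.leadingCoeff])
    rw [Matrix.charpoly_degree_eq_dim, hcard, ← hR, degree_eq_natDegree hR0] at h2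
    have : R.natDegree < n + 1 := by exact_mod_cast h2
    omega
  have hRv : (aeval M R) *ᵥ e = 0 := by
    rw [hR, map_sub, Matrix.aeval_self_charpoly, Matrix.sub_mulVec, hPv]
    simp
  rw [aeval_mulVec M R (R.natDegree + 1) (by omega), Finset.sum_range_succ] at hRv
  obtain ⟨i, hi⟩ := hsurj R.natDegree hdeg
  have h := congrFun hRv i
  simp only [Pi.add_apply, Finset.sum_apply, Pi.smul_apply, smul_eq_mul, Pi.zero_apply] at h
  rw [Finset.sum_eq_zero, zero_add, hpow _ hdeg] at h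
  · rcases mul_eq_zero.1 h with h | h
    · exact hR0 (leadingCoeff_eq_zero.1 h)
    · exact (hT0 _ hdeg).2 i hi h
  · intro t ht
    have ht' := Finset.mem_range.1 ht
    rw [hpow t (by omega), (hT0 t (by omega)).1 i (by omega), mul_zero]

end Pool.Agent.H924Z.Larsen
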