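import Pool.Agent.H924Z.LarsenBasis
import Pool.Agent.H924Z.LarsenCount

set_option autoImplicit false

namespace Pool.Agent.H924Z.Larsen

open Polynomial Module Matrix

variable {F : Type} [Field F]

/-- Every non-scalar matrix is a sum of two matrices with (almost) prescribed characteristic
polynomials. -/
theorem split (m : ℕ) (A : Matrix (Fin (m + 2)) (Fin (m + 2)) F) (hA : ∀ a : F, A ≠ a • 1)
    (hq : 3 ≤ m ∨ ∃ α : F, α ≠ 0 ∧ α ≠ 1) (P Q : F[X]) (hP : P.Monic)
    (hPd : P.natDegree = m + 2) (hQ : Q.Monic) (hQd : Q.natDegree = m + 1) :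
    ∃ U V : Matrix (Fin (m + 2)) (Fin (m + 2)) F, ∃ y : F, A = U + V ∧ U.charpoly = P ∧
      V.charpoly = (X - C y) * Q := by
  obtain ⟨b, r, α, β, hr1, hr, hα, hβ, h01, h0, hmid, hrow⟩ := pat_basis m (by simp)
    (Matrix.toLin' A) (fun a ha => hA a (by
      have := congrArg LinearMap.toMatrix' ha
      simpa using this)) hq
  obtain ⟨U, V, y, hUV, hU, hV⟩ := pattern m r hr1 hr _ α β hα hβ h01 h0 hmid hrow P Q hP hPd
    hQ hQd
  have h1 : LinearMap.toMatrix b b (Matrix.toLin' A) = Uᵀ + Vᵀ := by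
    rw [← Matrix.transpose_add, ← hUV]
    ext i j
    rw [LinearMap.toMatrix_apply]
    rfl
  have h2 : Matrix.toLin' A = Matrix.toLin b b Uᵀ + Matrix.toLin b b Vᵀ := by
    rw [← map_add, ← h1, Matrix.toLin_toMatrix]
  refine ⟨LinearMap.toMatrix' (Matrix.toLin b b Uᵀ), LinearMap.toMatrix' (Matrix.toLin b b Vᵀ), y,
    ?_, ?_, ?_⟩
  · rw [← map_add, ← h2, LinearMap.toMatrix'_toLin']
  · rw [← LinearMap.toMatrix_eq_toMatrix', LinearMap.charpoly_toMatrix, Matrix.charpoly_toLin,
      Matrix.charpoly_transpose, hU]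
  · rw [← LinearMap.toMatrix_eq_toMatrix', LinearMap.charpoly_toMatrix, Matrix.charpoly_toLin,
      Matrix.charpoly_transpose, hV]

/-- The class of `X` is a `k`-th power modulo `P`. -/
def Good (k : ℕ) (P : F[X]) : Prop := ∃ g : F[X], P ∣ g ^ k - X

theorem Good.pow {k n : ℕ} {P : F[X]} (h : Good k P) (U : Matrix (Fin n) (Fin n) F)
    (hU : U.charpoly = P) : ∃ W : Matrix (Fin n) (Fin n) F, U = W ^ k := by
  obtain ⟨g, c, hc⟩ := h
  refine ⟨aeval U g, ?_⟩
  have := congrArg (aeval U) hc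
  rw [map_mul, ← hU, Matrix.aeval_self_charpoly, zero_mul, map_sub, map_pow, aeval_X] at this
  exact (sub_eq_zero.1 this).symm

theorem Good.mul {k : ℕ} {P Q : F[X]} (hP : Good k P) (hQ : Good k Q) (h : IsCoprime P Q) :
    Good k (P * Q) := by
  obtain ⟨g1, h1⟩ := hP
  obtain ⟨g2, h2⟩ := hQ
  obtain ⟨a, b, hab⟩ := id h
  refine ⟨g1 * (b * Q) + g2 * (a * P), h.mul_dvd ?_ ?_⟩
  · have h3 : P ∣ g1 * (b * Q) + g2 * (a * P) - g1 :=
      ⟨a * (g2 - g1), by linear_combination g1 * hab⟩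
    have h4 := (h3.trans (sub_dvd_pow_sub_pow _ _ k)).add h1
    simpa using h4
  · have h3 : Q ∣ g1 * (b * Q) + g2 * (a * P) - g2 :=
      ⟨b * (g1 - g2), by linear_combination g2 * hab⟩
    have h4 := (h3.trans (sub_dvd_pow_sub_pow _ _ k)).add h2
    simpa using h4

theorem good_lin {k : ℕ} {x : F} (hx : x ^ k = x) : Good k (X - C x) :=
  ⟨C x, -1, by rw [← C_pow, hx]; ring⟩

section ext

variable {K : Type} [Field K] [Algebra F K] [FiniteDimensional F K]

theorem good_minpoly {k : ℕ} (μ : K) (h : (minpoly F (μ ^ k)).natDegree = finrank F K) :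
    Good k (minpoly F (μ ^ k)) := by
  have h1 := (Field.primitive_element_iff_minpoly_natDegree_eq F (μ ^ k)).2 h
  have h2 := IntermediateField.adjoin_simple_toSubalgebra_of_isAlgebraic (F := F)
    (Algebra.IsAlgebraic.isAlgebraic (μ ^ k))
  rw [h1, Algebra.adjoin_singleton_eq_range_aeval] at h2
  have h3 : μ ∈ (aeval (R := F) (μ ^ k)).range := by rw [← h2]; simp
  obtain ⟨g, hg⟩ := h3
  refine ⟨g, minpoly.dvd F _ ?_⟩
  have hg' : aeval (μ ^ k) g = μ := hg
  rw [map_sub, map_pow, hg', aeval_X, sub_self]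

theorem trace_minpoly (α : K) (h : (minpoly F α).natDegree = finrank F K) :
    (minpoly F α).nextCoeff = -Algebra.trace F K α := by
  have h1 := (Field.primitive_element_iff_minpoly_natDegree_eq F α).2 h
  rw [trace_eq_finrank_mul_minpoly_nextCoeff, h1, IntermediateField.finrank_top]
  simp

theorem coprime_minpoly (α : K) (x : F) (h : α ≠ algebraMap F K x) :
    IsCoprime (X - C x) (minpoly F α) := by
  rw [(irreducible_X_sub_C x).coprime_iff_not_dvd, dvd_iff_isRoot]
  intro hr
  exact h (minpoly.root (Algebra.IsIntegral.isIntegral α) hr).symm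

theorem card_nongen [Fintype F] [Fintype K] [DecidableEq K] :
    (((Finset.univ.filter fun α : K => (minpoly F α).natDegree ≠ finrank F K).card : ℕ) : ℝ)
      ≤ 2 * Real.sqrt (Fintype.card K) := by
  set q := Fintype.card F with hq
  set m := finrank F K with hm
  have hq2 : 2 ≤ q := Fintype.one_lt_card
  have hm0 : 0 < m := Module.finrank_pos
  have hK : Fintype.card K = q ^ m := Module.card_eq_pow_finrank
  have h1 : (Finset.univ.filter fun α : K => (minpoly F α).natDegree ≠ m) ⊆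
      (Finset.Icc 1 (m / 2)).biUnion fun d => Finset.univ.filter fun α : K => α ^ q ^ d = α := by
    intro α hα
    simp only [Finset.mem_filter, Finset.mem_univ, true_and, Finset.mem_biUnion,
      Finset.mem_Icc] at hα ⊢
    have hi : IsIntegral F α := Algebra.IsIntegral.isIntegral α
    have hd := minpoly.degree_dvd hi
    have hpos := minpoly.natDegree_pos hi
    refine ⟨(minpoly F α).natDegree, ⟨hpos, ?_⟩, ?_⟩
    · obtain ⟨c, hc⟩ := hd
      rw [← hm] at hc
      have hc2 : 2 ≤ c := by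
        rcases c with _ | _ | c
        · omega
        · omega
        · omega
      rw [Nat.le_div_iff_mul_le (by norm_num)]
      nlinarith
    · obtain ⟨c, hc⟩ := ((minpoly.irreducible hi).natDegree_dvd_iff_dvd_X_pow_card_pow_sub_X).1
        (dvd_refl _)
      have := congrArg (aeval α) hc
      rw [map_mul, minpoly.aeval, zero_mul, map_sub, map_pow, aeval_X,
        Nat.card_eq_fintype_card] at this
      exact sub_eq_zero.1 this
  have h2 : ∀ d ∈ Finset.Icc 1 (m / 2),
      (Finset.univ.filter fun α : K => α ^ q ^ d = α).card ≤ q ^ d := by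
    intro d hd
    have hd0 : d ≠ 0 := by have := (Finset.mem_Icc.1 hd).1; omega
    have hne := FiniteField.X_pow_card_pow_sub_X_ne_zero K hd0 (show 1 < q by omega)
    have hdeg := FiniteField.X_pow_card_pow_sub_X_natDegree_eq K hd0 (show 1 < q by omega)
    refine le_trans ?_ (le_trans (Multiset.toFinset_card_le _)
      ((card_roots' (X ^ q ^ d - X : K[X])).trans hdeg.le))
    refine Finset.card_le_card fun x hx => ?_
    rw [Multiset.mem_toFinset, mem_roots hne]
    simp only [Finset.mem_filter, Finset.mem_univ, true_and] at hx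
    simp [hx]
  have h3 : ∀ D : ℕ, ∑ d ∈ Finset.Icc 1 D, q ^ d ≤ 2 * q ^ D := by
    intro D
    induction D with
    | zero => simp
    | succ D ih =>
      rw [Finset.sum_Icc_succ_top (by omega), pow_succ]
      nlinarith [Nat.zero_le (q ^ D)]
  have h4 := (Finset.card_le_card h1).trans
    (Finset.card_biUnion_le.trans ((Finset.sum_le_sum h2).trans (h3 _)))
  have h5 : ((q ^ (m / 2) : ℕ) : ℝ) ≤ Real.sqrt (Fintype.card K) := by
    apply Real.le_sqrt_of_sq_le
    rw [hK]
    have : (q ^ (m / 2)) ^ 2 ≤ q ^ m := by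
      rw [← pow_mul]
      exact Nat.pow_le_pow_right (by omega) (by omega)
    exact_mod_cast this
  have h6 : (((Finset.univ.filter fun α : K => (minpoly F α).natDegree ≠ m).card : ℕ) : ℝ)
      ≤ 2 * ((q ^ (m / 2) : ℕ) : ℝ) := by exact_mod_cast h4
  linarith

theorem exists_gen [Fintype F] [Fintype K] (k : ℕ) (hk : 1 ≤ k) (θ : K) (hθ : θ ≠ 0)
    (hQ : 100 * k ^ 4 < Fintype.card K) :
    ∃ μ ν : K, μ ^ k + ν ^ k = θ ∧
      ((minpoly F (μ ^ k)).natDegree = finrank F K ∧ μ ^ k ≠ 0 ∧ μ ^ k ≠ 1) ∧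
      ((minpoly F (ν ^ k)).natDegree = finrank F K ∧ ν ^ k ≠ 0 ∧ ν ^ k ≠ 1) := by
  classical
  obtain ⟨μ, ν, h, hμ, hν⟩ := exists_rep k hk θ hθ
    ((Finset.univ.filter fun α : K => (minpoly F α).natDegree ≠ finrank F K) ∪ {0, 1}) (by
      have h1 := card_nongen (F := F) (K := K)
      have h2 : (1 : ℝ) ≤ Real.sqrt (Fintype.card K) := by
        rw [Real.one_le_sqrt]
        exact_mod_cast Fintype.card_pos
      have h3 := Finset.card_union_le
        (Finset.univ.filter fun α : K => (minpoly F α).natDegree ≠ finrank F K) {0, 1}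
      have h4 : ({0, 1} : Finset K).card ≤ 2 := Finset.card_le_two
      have h5 := h3.trans (Nat.add_le_add_left h4 _)
      have h6 := (Nat.cast_le (α := ℝ)).2 h5
      push_cast at h6 h1 ⊢
      linarith) hQ
  simp only [Finset.mem_union, Finset.mem_filter, Finset.mem_univ, true_and, Finset.mem_insert,
    Finset.mem_singleton, not_or, not_not] at hμ hν
  exact ⟨μ, ν, h, hμ, hν⟩

end ext

theorem exists_ext [Fintype F] (n : ℕ) (hn : n ≠ 0) :
    ∃ (K : Type) (_ : Field K) (_ : Algebra F K) (_ : Fintype K),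
      finrank F K = n ∧ Fintype.card K = Fintype.card F ^ n := by
  obtain ⟨p, hp⟩ := CharP.exists F
  have : Fact (Nat.Prime p) := ⟨CharP.char_is_prime F p⟩
  have : NeZero n := ⟨hn⟩
  refine ⟨FiniteField.Extension F p n, inferInstance, inferInstance, Fintype.ofFinite _,
    FiniteField.finrank_extension F p n, ?_⟩
  rw [← Nat.card_eq_fintype_card (α := F), ← FiniteField.natCard_extension F p n]
  exact (@Nat.card_eq_fintype_card _ (Fintype.ofFinite _)).symm

theorem scalar_case [Fintype F] (k : ℕ) (hk : 1 ≤ k) (n : ℕ) (hn : n ≠ 0)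
    (hQ : 100 * k ^ 4 < Fintype.card F ^ n) (c : F) :
    ∃ U V : Matrix (Fin n) (Fin n) F, c • (1 : Matrix (Fin n) (Fin n) F) = U ^ k + V ^ k := by
  by_cases hc : c = 0
  · exact ⟨0, 0, by simp [hc, zero_pow (show k ≠ 0 by omega)]⟩
  obtain ⟨K, _, _, _, hK, hK'⟩ := exists_ext (F := F) n hn
  have : FiniteDimensional F K := .of_finite
  obtain ⟨μ, ν, h, -, -⟩ := exists_gen (F := F) k hk (algebraMap F K c) (by simpa using hc)
    (by rwa [hK'])
  let b := Module.finBasisOfFinrankEq F K hK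
  refine ⟨Algebra.leftMulMatrix b μ, Algebra.leftMulMatrix b ν, ?_⟩
  rw [← map_pow, ← map_pow, ← map_add, h, AlgHom.commutes, Algebra.algebraMap_eq_smul_one]

theorem nonscalar_case [Fintype F] (k : ℕ) (hk : 1 ≤ k) (m : ℕ)
    (hQ : 100 * k ^ 4 < Fintype.card F ^ (m + 1)) (hq : 3 ≤ m ∨ ∃ α : F, α ≠ 0 ∧ α ≠ 1)
    (A : Matrix (Fin (m + 2)) (Fin (m + 2)) F) (hA : ∀ a : F, A ≠ a • 1) :
    ∃ U V : Matrix (Fin (m + 2)) (Fin (m + 2)) F, A = U ^ k + V ^ k := by
  classical
  obtain ⟨K, _, _, _, hK, hK'⟩ := exists_ext (F := F) (m + 1) (by omega)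
  have : FiniteDimensional F K := .of_finite
  obtain ⟨x, hx01, hxτ⟩ : ∃ x : F, (x = 0 ∨ x = 1) ∧ A.trace - x ≠ 0 := by
    by_cases h : A.trace = 0
    · exact ⟨1, Or.inr rfl, by simp [h]⟩
    · exact ⟨0, Or.inl rfl, by simpa using h⟩
  obtain ⟨θ, hθ⟩ := Algebra.trace_surjective F K (A.trace - x)
  have hθ0 : θ ≠ 0 := by
    rintro rfl
    exact hxτ (by rw [← hθ, map_zero])
  obtain ⟨μ, ν, h, ⟨hμ, hμ0, hμ1⟩, ⟨hν, hν0, -⟩⟩ := exists_gen (F := F) k hk θ hθ0 (by rwa [hK'])
  have hmμ := minpoly.monic (Algebra.IsIntegral.isIntegral (R := F) (μ ^ k))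
  have hmν := minpoly.monic (Algebra.IsIntegral.isIntegral (R := F) (ν ^ k))
  obtain ⟨U, V, y, hUV, hU, hV⟩ := split m A hA hq ((X - C x) * minpoly F (μ ^ k))
    (minpoly F (ν ^ k)) ((monic_X_sub_C x).mul hmμ)
    (by rw [(monic_X_sub_C x).natDegree_mul hmμ, natDegree_X_sub_C, hμ, hK]; omega) hmν
    (by rw [hν, hK])
  have hy : y = 0 := by
    have h1 := congrArg Matrix.trace hUV
    rw [Matrix.trace_add, Matrix.trace_eq_neg_charpoly_nextCoeff U,
      Matrix.trace_eq_neg_charpoly_nextCoeff V, hU, hV, (monic_X_sub_C x).nextCoeff_mul hmμ,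
      (monic_X_sub_C y).nextCoeff_mul hmν, nextCoeff_X_sub_C, nextCoeff_X_sub_C,
      trace_minpoly _ hμ, trace_minpoly _ hν] at h1
    rw [← h, map_add] at hθ
    linear_combination -h1 - hθ
  subst hy
  have hk0 : k ≠ 0 := by omega
  have hx : x ^ k = x := by
    rcases hx01 with rfl | rfl
    · exact zero_pow hk0
    · exact one_pow k
  obtain ⟨W1, h1⟩ := ((good_lin hx).mul (good_minpoly μ hμ) (coprime_minpoly _ _ (by
    rcases hx01 with rfl | rfl
    · simpa using hμ0
    · simpa using hμ1))).pow U hU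
  obtain ⟨W2, h2⟩ := ((good_lin (zero_pow hk0)).mul (good_minpoly ν hν) (coprime_minpoly _ _ (by
    simpa using hν0))).pow V hV
  exact ⟨W1, W2, by rw [hUV, h1, h2]⟩

theorem larsen : ∀ k : ℕ, 1 ≤ k → ∃ N : ℕ, ∀ (n : ℕ) (F : Type) [Field F] [Fintype F],
    N ≤ Fintype.card F ^ (n ^ 2) →
      ∀ A : Matrix (Fin n) (Fin n) F, ∃ X Y : Matrix (Fin n) (Fin n) F, A = X ^ k + Y ^ k := by
  intro k hk
  obtain ⟨C, hC⟩ : ∃ C, C = 100 * k ^ 4 := ⟨_, rfl⟩
  have hC1 : 1 ≤ C := by rw [hC]; have := Nat.pow_le_pow_left hk 4; omega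
  refine ⟨C ^ (C ^ 2) + 2 ^ 16 + 1, fun n F _ _ hN A => ?_⟩
  have hq2 : 2 ≤ Fintype.card F := Fintype.one_lt_card
  set q := Fintype.card F with hq
  rcases n with _ | _ | m
  · exact ⟨0, 0, Subsingleton.elim _ _⟩
  · have hA : A = A 0 0 • (1 : Matrix (Fin (0 + 1)) (Fin (0 + 1)) F) := by
      ext i j
      obtain rfl : i = 0 := Fin.ext (by have := i.2; simp only [Fin.val_zero]; omega)
      obtain rfl : j = 0 := Fin.ext (by have := j.2; simp only [Fin.val_zero]; omega)
      simp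
    rw [hA]
    refine scalar_case k hk _ (by omega) ?_ _
    have h1 : C ≤ C ^ (C ^ 2) := Nat.le_self_pow (by positivity) C
    simp only [zero_add, one_pow, pow_one] at hN ⊢
    omega
  · have hbig : C < q ^ (m + 1) := by
      by_contra hcon
      push Not at hcon
      have h1 : q ≤ C := (Nat.le_self_pow (by omega) q).trans hcon
      have h2 : m + 1 < C := lt_of_lt_of_le (Nat.lt_two_pow_self)
        ((Nat.pow_le_pow_left hq2 _).trans hcon)
      have h3 : q ^ ((m + 1 + 1) ^ 2) ≤ C ^ (C ^ 2) :=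
        (Nat.pow_le_pow_left h1 _).trans
          (Nat.pow_le_pow_right hC1 (Nat.pow_le_pow_left (by omega) 2))
      omega
    by_cases hA : ∃ a : F, A = a • 1
    · obtain ⟨a, rfl⟩ := hA
      refine scalar_case k hk _ (by omega) ?_ _
      have : q ^ (m + 1) ≤ q ^ (m + 1 + 1) := Nat.pow_le_pow_right (by omega) (by omega)
      rw [← hq]
      omega
    · push Not at hA
      refine nonscalar_case k hk m (by rw [← hq]; omega) ?_ A hA
      by_contra hcon
      push Not at hcon
      obtain ⟨hm, hF⟩ := hcon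
      classical
      have h1 : q ≤ 2 := by
        have : (Finset.univ : Finset F) ⊆ {0, 1} := fun α _ => by
          by_cases h : α = 0
          · simp [h]
          · simp [hF α h]
        exact (Finset.card_le_card this).trans Finset.card_le_two
      have h3 : q ^ ((m + 1 + 1) ^ 2) ≤ 2 ^ 16 :=
        (Nat.pow_le_pow_left h1 _).trans
          (Nat.pow_le_pow_right (by omega) (show (m + 1 + 1) ^ 2 ≤ 4 ^ 2 from
            Nat.pow_le_pow_left (by omega) 2))
      omega

end Pool.Agent.H924Z.Larsen
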