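import Pool.Agent.H924Z.LarsenKry

set_option autoImplicit false

namespace Pool.Agent.H924Z.Larsen

open Polynomial Matrix

variable {F : Type} [Field F]

theorem charpoly_row_zero {m : ℕ} (Y : Matrix (Fin (m + 1)) (Fin (m + 1)) F)
    (h : ∀ b : Fin m, Y 0 b.succ = 0) :
    Y.charpoly = (X - C (Y 0 0)) * (Y.submatrix Fin.succ Fin.succ).charpoly := by
  unfold Matrix.charpoly
  rw [Matrix.det_succ_row_zero, Fin.sum_univ_succ]
  rw [Finset.sum_eq_zero, add_zero]
  · simp only [Fin.val_zero, pow_zero, one_mul, Matrix.charmatrix_apply_eq, Fin.succAbove_zero]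
    congr 2
    ext a b : 2
    by_cases hab : a = b
    · subst hab; simp
    · have : a.succ ≠ b.succ := fun h => hab (Fin.succ_injective _ h)
      simp [Matrix.charmatrix_apply_ne _ _ _ hab, Matrix.charmatrix_apply_ne _ _ _ this]
  · intro b _
    rw [Matrix.charmatrix_apply_ne _ _ _ (Fin.succ_ne_zero b).symm, h]
    simp

/-- A matrix with the given zero pattern splits as a sum with prescribed characteristic
polynomials. -/
theorem pattern (m r : ℕ) (hr1 : 1 ≤ r) (hrm : r ≤ m + 1)
    (A : Matrix (Fin (m + 2)) (Fin (m + 2)) F) (α β : F) (hα : α ≠ 0) (hβ : β ≠ 0)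
    (h01 : ∀ i j : Fin (m + 2), i.val = 0 → j.val = 1 → A i j ≠ 0)
    (h0 : ∀ i j : Fin (m + 2), i.val = 0 → 2 ≤ j.val → A i j = 0)
    (hmid : ∀ i j : Fin (m + 2), 1 ≤ i.val → i.val < r → i.val < j.val → A i j = 0)
    (hrow : ∀ i j : Fin (m + 2), i.val = r → r < j.val →
      A i j = (if j.val = r + 1 then α else 0) + (if j.val = m + 1 then β else 0))
    (P Q : F[X]) (hP : P.Monic) (hPd : P.natDegree = m + 2) (hQ : Q.Monic)
    (hQd : Q.natDegree = m + 1) :
    ∃ U V : Matrix (Fin (m + 2)) (Fin (m + 2)) F, ∃ y : F, A = U + V ∧ U.charpoly = P ∧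
      V.charpoly = (X - C y) * Q := by
  set X0 : Matrix (Fin (m + 2)) (Fin (m + 2)) F := fun i j =>
    if i.val + 1 < j.val then 0 else
      if j.val = i.val + 1 then (if i.val = 0 then A i j else if i.val = r then α else 1) else
        if i.val = j.val + 1 ∧ r < j.val then A i j - 1 else A i j with hX0
  set Y0 : Matrix (Fin (m + 1)) (Fin (m + 1)) F := fun a b =>
    A a.succ b.succ - X0 a.succ b.succ with hY0
  set ρ : Fin (m + 1) → ℕ := fun a => if r ≤ a.val then a.val - r else m - a.val with hρ
  obtain ⟨Y2, hY2, hY2c⟩ := krylov m ρ
    (by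
      intro a b hab
      have ha := a.2
      have hb := b.2
      simp only [hρ] at hab
      apply Fin.ext
      split_ifs at hab <;> omega)
    (by
      intro t ht
      by_cases h : t + r ≤ m
      · exact ⟨⟨t + r, by omega⟩, by simp [hρ]⟩
      · refine ⟨⟨m - t, by omega⟩, ?_⟩
        simp only [hρ]
        split_ifs <;> omega)
    (by simp) Y0 0 (by simp only [hρ, Fin.val_zero]; split_ifs <;> omega)
    (by
      intro a b _ hab
      have ha := a.2
      have hb := b.2
      simp only [hρ] at hab
      simp only [hY0, hX0, Fin.val_succ]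
      by_cases h1 : r ≤ a.val
      · by_cases h2 : r ≤ b.val
        · rw [if_pos h1, if_pos h2] at hab
          rw [if_neg (by omega), if_neg (by omega), if_neg (by omega), sub_self]
        · rw [if_pos h1, if_neg h2] at hab
          omega
      · by_cases h2 : r ≤ b.val
        · rw [if_neg h1, if_pos h2] at hab
          by_cases h3 : a.val + 1 = r
          · rw [hrow a.succ b.succ (by simp [h3]) (by simp; omega)]
            simp only [Fin.val_succ]
            by_cases h4 : b.val = r
            · rw [if_pos (by omega), if_neg (by omega), if_neg (by omega), if_pos (by omega),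
                if_neg (by omega), if_pos h3]
              simp
            · rw [if_neg (by omega), if_neg (by omega), if_pos (by omega)]
              simp
          · rw [hmid a.succ b.succ (by simp) (by simp; omega) (by simp; omega),
              if_pos (by omega), sub_self]
        · rw [if_neg h1, if_neg h2] at hab
          rw [hmid a.succ b.succ (by simp) (by simp; omega) (by simp; omega),
              if_pos (by omega), sub_self])
    (by
      intro a b _ hab
      have ha := a.2
      have hb := b.2
      simp only [hρ] at hab
      simp only [hY0, hX0, Fin.val_succ]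
      by_cases h1 : r ≤ a.val
      · by_cases h2 : r ≤ b.val
        · rw [if_pos h1, if_pos h2] at hab
          rw [if_neg (by omega), if_neg (by omega), if_pos (by omega)]
          simp
        · rw [if_pos h1, if_neg h2] at hab
          omega
      · by_cases h2 : r ≤ b.val
        · rw [if_neg h1, if_pos h2] at hab
          have h3 : a.val + 1 = r := by omega
          have h5 : b.val = m := by omega
          rw [hrow a.succ b.succ (by simp [h3]) (by simp; omega)]
          simp only [Fin.val_succ]
          by_cases h4 : b.val = r
          · rw [if_pos (by omega), if_pos (by omega), if_neg (by omega), if_pos (by omega),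
              if_neg (by omega), if_pos h3]
            simpa using hβ
          · rw [if_neg (by omega), if_pos (by omega), if_pos (by omega)]
            simpa using hβ
        · rw [if_neg h1, if_neg h2] at hab
          rw [hmid a.succ b.succ (by simp) (by simp; omega) (by simp; omega),
            if_neg (by omega), if_pos (by omega), if_neg (by omega), if_neg (by omega)]
          simp)
    Q hQ hQd
  set X1 : Matrix (Fin (m + 2)) (Fin (m + 2)) F := fun i j =>
    Fin.cases (X0 0 j) (fun a => Fin.cases (X0 a.succ 0)
      (fun b => A a.succ b.succ - Y2 a b) j) i with hX1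
  have hX1a : ∀ j, X1 0 j = X0 0 j := fun j => by simp [hX1]
  have hX1b : ∀ a b : Fin (m + 1), X1 a.succ b.succ = A a.succ b.succ - Y2 a b := fun a b => by
    simp [hX1]
  have hX1c : ∀ i j : Fin (m + 2), 2 ≤ j.val → X1 i j = X0 i j := by
    intro i j hj
    refine Fin.cases ?_ (fun a => ?_) i
    · exact hX1a j
    · obtain ⟨b, rfl⟩ : ∃ b : Fin (m + 1), j = b.succ := by
        refine ⟨j.pred (by rintro rfl; simp at hj), by simp⟩
      have hb : b ≠ 0 := by rintro rfl; simp at hj
      rw [hX1b, hY2 a b hb]
      simp [hY0]
  obtain ⟨U, hU, hUc⟩ := krylov (m + 1) (fun i : Fin (m + 2) => m + 1 - i.val)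
    (by
      intro a b hab
      have ha := a.2
      have hb := b.2
      simp only at hab
      apply Fin.ext
      omega)
    (by
      intro t ht
      exact ⟨⟨m + 1 - t, by omega⟩, by simp only; omega⟩)
    (by simp) X1 0 (by simp)
    (by
      intro i j _ hij
      have hi := i.2
      have hj := j.2
      rw [hX1c i j (by omega)]
      simp only [hX0]
      rw [if_pos (by omega)])
    (by
      intro i j _ hij
      have hi := i.2
      have hj := j.2
      by_cases hi0 : i = 0
      · subst hi0
        rw [hX1a]
        simp only [hX0, Fin.val_zero] at hij ⊢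
        rw [if_neg (by omega), if_pos (by omega), if_pos trivial]
        exact h01 0 j rfl (by omega)
      · have : i.val ≠ 0 := fun h => hi0 (Fin.ext h)
        rw [hX1c i j (by omega)]
        simp only [hX0]
        rw [if_neg (by omega), if_pos (by omega), if_neg this]
        split_ifs
        · exact hα
        · exact one_ne_zero)
    P hP hPd
  refine ⟨U, A - U, (A - U) 0 0, by abel, hUc, ?_⟩
  rw [charpoly_row_zero, ← hY2c]
  · congr 2
    ext a b
    simp only [Matrix.submatrix_apply, Matrix.sub_apply]
    rw [hU _ _ (Fin.succ_ne_zero b), hX1b]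
    ring
  · intro b
    rw [Matrix.sub_apply, hU _ _ (Fin.succ_ne_zero b), hX1a]
    simp only [hX0, Fin.val_zero, Fin.val_succ]
    by_cases hb : b.val = 0
    · rw [if_neg (by omega), if_pos (by omega), if_pos trivial, sub_self]
    · rw [if_pos (by omega), h0 0 b.succ rfl (by simp; omega), sub_self]

end Pool.Agent.H924Z.Larsen
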